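import Pool.Agent.H83.GN.ErgG
import Pool.Agent.H45.GN.E
import Pool.Agent.H82.GN.PRI
import Pool.Agent.H17.GN.PGP
import Pool.Agent.H70.GN.P3G
import Pool.Agent.H79.GN.MRG
import Pool.Agent.H2.GN.RSP
import Pool.Agent.H61.GN.TPP

/-!
Theorem G: the ergodic part, closed.
-/

set_option autoImplicit false

namespace Pool.Agent.H83.GN

open Pool.Agent.H67.AG.AllF
open Pool.Agent.H28.GN
open Pool.Agent.H83.V (v_BK v_LAB v_LAF v_CND v_X5 v_STX v_CPV)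

theorem g_LGB : T_LGB := Pool.Agent.H45.GNG.pf_LGB v_LAB v_LAF
theorem g_PRI : T_PRI := Pool.Agent.H82.GN.pf_PRI c_UL
theorem g_PGP : T_PGP := Pool.Agent.H17.GN.pf_PGP g_PRI g_LGB v_LAB
theorem g_LPP : T_LPP := Pool.Agent.H45.GNG.pf_LPP c_UL
theorem g_P3G : T_P3G := Pool.Agent.H70.GNG.pf_P3G Pool.Agent.H24.UG.AllU.u_UP3 c_UL
theorem g_CPG : T_CPG := Pool.Agent.H45.GNG.pf_CPG v_CPV
theorem g_MRG : T_MRG := Pool.Agent.H79.GN.pf_MRG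
theorem g_RSP : T_RSP := Pool.Agent.H2.GN.pf_RSP g_P3G g_CPG g_MRG c_UL
theorem g_TPP : T_TPP := Pool.Agent.H61.GNG.pf_TPP g_RSP
theorem g_SM1 : T_SM1 := Pool.Agent.H45.GNG.pf_SM1 v_STX
theorem g_CIM : T_CIM := Pool.Agent.H61.GNG.pf_CIM

/-- there are no data -/
theorem noGx : IsEmpty Gx := noGx_of g_LGB

end Pool.Agent.H83.GN
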