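import Pool.Agent.H83.GN.Nm
import Pool.Agent.H40.AG.TargetsE
import Pool.Agent.H67.AG.T1

/-!
Theorem V (`MP_34b97f_an`, `MP_c59857_nt`), row DSG: the descent. After `Pool.Agent.H36.LF.DSC`.
-/

set_option autoImplicit false

open MeasureTheory ProbabilityTheory Filter Topology Finset
open scoped Nat ENNReal

namespace Pool.Agent.H83.GN.DSGx

open Pool.Agent.H67.AG (avgP ul Inv Rt Av SA kap JJ TT InvZ nxt triv tow XN PN TN XX PX TX prX Fac)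
open Pool.Agent.H28.LF (La Cd dm ds)
open Pool.Agent.H28.GN

theorem meas_sel {Ω X : Type} [MeasurableSpace Ω] [MeasurableSpace X] {n : ℕ}
    {f : Ω → Fin n → X} {g : Ω → Fin n} (hf : ∀ b, Measurable fun ω => f ω b)
    (hg : Measurable g) : Measurable fun ω => f ω (g ω) := by
  intro B hB
  have e : (fun ω => f ω (g ω)) ⁻¹' B = ⋃ b, (g ⁻¹' {b} ∩ (fun ω => f ω b) ⁻¹' B) := by
    ext ω
    simp only [Set.mem_preimage, Set.mem_iUnion, Set.mem_inter_iff, Set.mem_singleton_iff]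
    constructor
    · intro h
      exact ⟨g ω, rfl, h⟩
    · rintro ⟨b, hb, h⟩
      rw [hb]
      exact h
  rw [e]
  exact MeasurableSet.iUnion fun b => (hg (measurableSet_singleton b)).inter (hf b hB)

/-- the numbers -/
theorem dsg_num {m γ κ ζ La₁ La₂ pr u : ℝ} (hm : 0 < m) (hγ : 0 < γ) (hγ1 : γ ≤ 1)
    (hκ : 0 < κ)
    (hu : u = 8 * (γ ^ 2 * κ / 61036) / (γ * m)) (h1 : ζ ≤ γ * κ / (10 ^ 6 * m))
    (h2 : La₁ ≤ La₂ + m * pr) (h3 : pr ≤ 8 * u + 5 * ζ) (h4 : La₂ ≤ γ ^ 2 * κ / 61036) :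
    10 / (γ * κ) * La₁ + 1 / 8 ≤ 1 / 2 := by
  have h0 : 0 < γ * κ := mul_pos hγ hκ
  have e1 : m * u = 8 * (γ * κ) / 61036 := by
    rw [hu]
    field_simp
  have e2 : m * ζ ≤ γ * κ / 10 ^ 6 := by
    have := mul_le_mul_of_nonneg_left h1 hm.le
    have e : m * (γ * κ / (10 ^ 6 * m)) = γ * κ / 10 ^ 6 := by
      field_simp
    linarith
  have e3 : m * pr ≤ m * (8 * u + 5 * ζ) := mul_le_mul_of_nonneg_left h3 hm.le
  have e4 : γ ^ 2 * κ ≤ γ * κ := by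
    have := mul_le_mul_of_nonneg_left hγ1 h0.le
    nlinarith
  have h5 : La₁ ≤ 66 * (γ * κ) / 61036 := by
    have : m * (8 * u + 5 * ζ) = 8 * (m * u) + 5 * (m * ζ) := by ring
    have h6 : La₂ ≤ γ * κ / 61036 := h4.trans (by gcongr)
    rw [this, e1] at e3
    linarith
  have h9 : 10 / (γ * κ) * La₁ ≤ 10 / (γ * κ) * (66 * (γ * κ) / 61036) :=
    mul_le_mul_of_nonneg_left h5 (by positivity)
  have h10 : 10 / (γ * κ) * (66 * (γ * κ) / 61036) = 10 * 66 / 61036 := by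
    field_simp
  rw [h10] at h9
  linarith

/-- DSG: the descent. -/
theorem pf_DSG (hLGB : T_LGB)
    (hNUM : T_NMP) (hW1 : T_H1) (hW2 : T_H2) (hW3 : T_H3) (hW4 : T_H4) (hW5 : T_H5)
    (hW6 : T_H6) (hW7 : T_H7) (hW8 : T_H8) (hW9 : T_H9)
    (hNXI : Pool.Agent.H67.AG.T_NXI) (hPXL : Pool.Agent.H40.AG.T_PXL)
    (hPXT : Pool.Agent.H40.AG.T_PXT) (hPXF : Pool.Agent.H40.AG.T_PXF) : T_DSG := by
  intro c Z hZ hCP
  obtain ⟨hZ', -, -⟩ := hNXI c.X c.μ c.T Z c.erg hZ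
  have hmp : MeasurePreserving c.T c.μ c.μ := c.erg.toMeasurePreserving
  have hγ := c.γ0
  have hκ := c.κ0
  obtain ⟨hγ1, hulo, -, -, -⟩ := hNUM c
  have hm : (0 : ℝ) < c.m := by exact_mod_cast c.m0
  obtain ⟨η, hη, h8⟩ := hW8 c (1 / 8) (by norm_num)
  obtain ⟨c₀, hc₀, hc₁, hcl⟩ := hW1 c (nxt c.μ c.T Z) hZ' hCP
  obtain ⟨ζ, hζ, hζ1, hζ2, hζ3⟩ : ∃ ζ : ℝ, 0 < ζ ∧ ζ ≤ η ∧ ζ ≤ 2 / 5 * c.ulo ∧
      ζ ≤ c.γ * c.κ / (10 ^ 6 * c.m) := by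
    refine ⟨min η (min (2 / 5 * c.ulo) (c.γ * c.κ / (10 ^ 6 * c.m))), ?_, min_le_left _ _,
      (min_le_right _ _).trans (min_le_left _ _), (min_le_right _ _).trans (min_le_right _ _)⟩
    refine lt_min hη (lt_min (by positivity) (by positivity))
  obtain ⟨n, hn⟩ : ∃ n : ℕ, (1 - c₀) ^ (n + 1) ≤ ζ / 12 := by
    obtain ⟨n, hn⟩ := exists_pow_lt_of_lt_one (show 0 < ζ / 12 by positivity)
      (show 1 - c₀ < 1 by linarith)
    refine ⟨n, le_trans ?_ hn.le⟩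
    exact pow_le_pow_of_le_one (by linarith) (by linarith) (Nat.le_succ n)
  obtain ⟨L₁, hL₁⟩ := h8 (nxt c.μ c.T Z) n hZ'
  have hn1 : (0 : ℝ) < (n : ℝ) + 1 := by positivity
  have hn2 : (1 : ℝ) ≤ (n : ℝ) + 1 := by
    have : (0 : ℝ) ≤ (n : ℝ) := Nat.cast_nonneg n
    linarith
  obtain ⟨θ, hθ, hθ1, hθ2⟩ : ∃ θ : ℝ, 0 < θ ∧ 3 * ((n : ℝ) + 1) ^ 2 * θ = ζ / 4 ∧
      ((n : ℝ) + 1) * θ ≤ ζ / 12 := by
    refine ⟨ζ / (12 * ((n : ℝ) + 1) ^ 2), by positivity, ?_, ?_⟩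
    · field_simp
      norm_num
    · have e : ((n : ℝ) + 1) * (ζ / (12 * ((n : ℝ) + 1) ^ 2)) = ζ / 12 / ((n : ℝ) + 1) := by
        field_simp
      rw [e]
      exact div_le_self (by positivity) hn2
  obtain ⟨Λ₀, hΛ₀⟩ := hW2 c (nxt c.μ c.T Z) θ hZ' hθ
  set Λ : ℕ := 2 * Λ₀ + 2 * L₁ + 1 with hΛ
  have hΛ0 : 0 < Λ := by omega
  obtain ⟨R, hR, hRT, hRJ, hR1, hR2, hRL⟩ := hW3 c Z Λ (ζ / 12) hZ (by positivity)
  obtain ⟨hP, -, -, -, -, -⟩ := hPXL c.X c.μ (nxt c.μ c.T Z) (n + 1) R hR1 hR2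
  have hPT := hPXT c.X c.μ c.T (nxt c.μ c.T Z) (n + 1) R hmp hZ' hR1 hR2 hRT
  obtain ⟨-, -, -, hFl, -⟩ := hPXF c.X c.μ c.T (nxt c.μ c.T Z) (n + 1) R hmp hZ' hR1 hR2 hRT
  have hw0 := hΛ₀ Λ (by omega) 0
  have h4 := hW4 c (nxt c.μ c.T Z) c₀ Λ n R (ζ / 12) θ hZ' hΛ0 hc₀ hc₁ hcl hR1 hR2 hRL hw0
  have hNF : (PX c.μ (nxt c.μ c.T Z) (n + 1) R).real (c.NF Λ n) ≤ ζ / 4 := by linarith
  have hFE : ∀ l, 2 * l ≤ Λ →
      (PX c.μ (nxt c.μ c.T Z) (n + 1) R).real (c.FE Λ l n) ≤ ζ / 4 := by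
    intro l hl
    have h5 := hW5 c (nxt c.μ c.T Z) Λ l n R θ hZ' hR1 hR2 hw0 (hΛ₀ (Λ - l) (by omega) l)
      (hΛ₀ Λ (by omega) l)
    rwa [hθ1] at h5
  have h6 := fun l (hl : 2 * l ≤ Λ) =>
    hW6 c Λ l n (PX c.μ (nxt c.μ c.T Z) (n + 1) R) hPT hΛ0 hl
  obtain ⟨hsm, -⟩ := h6 0 (Nat.zero_le _)
  have hslow : ∀ l, 2 * l ≤ Λ → (PX c.μ (nxt c.μ c.T Z) (n + 1) R).real
      {p | c.sel Λ n ((TX c.T (n + 1))^[l] p) ≠ c.sel Λ n p} ≤ ζ := by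
    intro l hl
    have h := (h6 l hl).2
    have h' := hFE l hl
    linarith
  have hmis := hW7 c Λ n (PX c.μ (nxt c.μ c.T Z) (n + 1) R) ζ hPT hΛ0 hslow (by linarith)
    ((hFE 0 (Nat.zero_le _)).trans (by linarith))
  have h88 := hL₁ Λ R hR1 hR2 hRT (fun l hl => (hslow l (by omega)).trans hζ1)
  -- the frequency of the bad words
  have hams : Measurable fun p : XX c.X (n + 1) => c.a (p.2.1 (c.sel Λ n p)) := by
    refine c.am.comp ?_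
    exact meas_sel (f := fun p : XX c.X (n + 1) => p.2.1)
      (fun b => (measurable_pi_apply b).comp (measurable_fst.comp measurable_snd)) hsm
  have haml : Measurable fun p : XX c.X (n + 1) => c.a p.2.2 :=
    c.am.comp (measurable_snd.comp measurable_snd)
  have hu2 : MeasurableSet[Inv (TX c.T (n + 1)) 1] (Set.univ : Set (XX c.X (n + 1))) :=
    MeasurableSet.univ
  have hlab := c.lip (XX c.X (n + 1)) (PX c.μ (nxt c.μ c.T Z) (n + 1) R) (TX c.T (n + 1))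
    (fun p => c.a (p.2.1 (c.sel Λ n p))) (fun p => c.a p.2.2) Set.univ hPT hams haml hu2
  have hlaf := hLGB.2 (XX c.X (n + 1)) c.X (PX c.μ (nxt c.μ c.T Z) (n + 1) R) c.μ
    (TX c.T (n + 1)) c.T (fun q => q.2.2) c.U c.q c.R c.Pt c.s c.Bad c.a hFl c.am
  rw [Set.univ_inter, hlaf] at hlab
  have hnum := dsg_num hm hγ hγ1 hκ (u := c.ulo) rfl hζ3 hlab hmis c.rel
  exact hW9 c Z n Λ R hZ hZ' hΛ0 hRT hRJ hR1 hR2 (by linarith) (h88.trans hnum)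

end Pool.Agent.H83.GN.DSGx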