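import Pool.Agent.H83.GN.Nm
import Pool.Agent.H55.AG.S1

/-!
Row Y1 of the board lvv_modules: the bad words are asymptotically invariant in
mean square (after row S1 of gap_modules, `Pool/Agent/H55/AG/S1.lean`).
-/

set_option autoImplicit false

open MeasureTheory ProbabilityTheory Filter Topology Finset
open scoped Nat ENNReal

namespace Pool.Agent.H83.GN.G1x

open Pool.Agent.H24.T2 (Pset)
open Pool.Agent.H67.AG (avgP ul Inv Rt Av SA kap JJ TT InvZ nxt triv tow XN PN TN XX PX TX prX Fac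
  T_UL)
open Pool.Agent.H28.LF (Wd La Cd dm ds)
open Pool.Agent.H28.GN
open Pool.Agent.H55.AG.S1

theorem FF_meas (d : Sg) (t : d.Pt) (p : ℕ) (j : Fin d.R → Fin d.n) :
    Measurable (d.FF t p j) := by
  classical
  unfold Sg.FF
  refine Measurable.ite ?_ measurable_const measurable_const
  have h : Measurable fun ω : d.Ω' =>
      (fun i : Fin d.R => d.y (j i) (d.T'^[p * ((i : ℕ) + 1)] ω)) :=
    measurable_pi_lambda _ fun i => (d.ym (j i)).comp (d.T'.measurable.iterate _)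
  exact h (MeasurableSet.of_discrete (s := d.Bad t p))

theorem FF_abs (d : Sg) (t : d.Pt) (p : ℕ) (j : Fin d.R → Fin d.n) (ω : d.Ω') :
    |d.FF t p j ω| ≤ 1 := by
  unfold Sg.FF
  split_ifs <;> simp

theorem s_nonneg (d : Sg) (t : d.Pt) (p : ℕ) : 0 ≤ d.s t p := by
  rcases d.sv t p with h | h <;> simp [h]

theorem s_le (d : Sg) (t : d.Pt) (p : ℕ) : d.s t p ≤ 1 := by
  rcases d.sv t p with h | h <;> simp [h]

/-- the weighted square norm of the average of length `L` -/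
noncomputable def NN (d : Sg) (t : d.Pt) (j : Fin d.R → Fin d.n) (L p : ℕ) : ℝ :=
  d.s t p * ∫ ω, Av d.T' 1 L (d.FF t p j) ω ^ 2 ∂d.P'

theorem NN_nonneg (d : Sg) (t : d.Pt) (j : Fin d.R → Fin d.n) (L p : ℕ) : 0 ≤ NN d t j L p :=
  mul_nonneg (s_nonneg d t p) (integral_nonneg fun _ => sq_nonneg _)

theorem NN_abs (d : Sg) (t : d.Pt) (j : Fin d.R → Fin d.n) (L p : ℕ) : |NN d t j L p| ≤ 1 := by
  unfold NN
  have h := norm_integral_le_of_norm_le_const (μ := d.P') (C := 1)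
    (f := fun ω => Av d.T' 1 L (d.FF t p j) ω ^ 2)
    (Filter.Eventually.of_forall fun x => by
      rw [Real.norm_eq_abs, abs_pow]
      exact pow_le_one₀ (abs_nonneg _) (Av_abs _ _ (FF_abs d t p j) x))
  rw [Real.norm_eq_abs, one_mul, probReal_univ] at h
  rw [abs_mul, abs_of_nonneg (s_nonneg d t p)]
  exact mul_le_one₀ (s_le d t p) (abs_nonneg _) h

/-- the limit of the averages of the square norms -/
noncomputable def al (d : Sg) (t : d.Pt) (j : Fin d.R → Fin d.n) (L : ℕ) : ℝ :=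
  ul d.U fun m => avgP 2 m (NN d t j L)

theorem al_tendsto (hul : T_UL) (d : Sg) (t : d.Pt) (j : Fin d.R → Fin d.n) (L : ℕ) :
    Tendsto (fun m => avgP 2 m (NN d t j L)) (d.U : Filter ℕ) (𝓝 (al d t j L)) :=
  (hul d.U).1 _ ⟨1, fun _ => Pool.Agent.H55.AG.abs_avgP_le zero_le_one fun p => NN_abs d t j L p⟩

theorem al_step (hul : T_UL) (d : Sg) (t : d.Pt) (j : Fin d.R → Fin d.n) (L M : ℕ) (hL : 0 < L)
    (hM : L ≤ M) : al d t j M ≤ al d t j L + 3 * L / M := by
  refine le_of_tendsto_of_tendsto' (al_tendsto hul d t j M)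
    ((al_tendsto hul d t j L).add_const (3 * L / M : ℝ)) fun m => ?_
  refine avgP_le_add (by positivity) fun p => ?_
  have h := norm_step d.mp' 1 L M hL hM (FF_meas d t p j) (FF_abs d t p j)
  have h2 : (0 : ℝ) ≤ 3 * L / M := by positivity
  unfold NN
  have h3 := mul_le_mul_of_nonneg_left h (s_nonneg d t p)
  have h4 := mul_le_mul_of_nonneg_right (s_le d t p) h2
  rw [mul_add] at h3
  linarith

theorem al_nonneg (hul : T_UL) (d : Sg) (t : d.Pt) (j : Fin d.R → Fin d.n) (L : ℕ) :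
    0 ≤ al d t j L := by
  refine ge_of_tendsto' (al_tendsto hul d t j L) fun m => ?_
  unfold avgP
  exact div_nonneg (Finset.sum_nonneg fun p _ => NN_nonneg d t j L p) (Nat.cast_nonneg _)

theorem main_ineq (hul : T_UL) (d : Sg) (t : d.Pt) (j : Fin d.R → Fin d.n) (L L' M : ℕ)
    (hL : 0 < L) (hL' : 0 < L') (hM : 0 < M) :
    ul d.U (fun m => avgP 2 m fun p => d.s t p *
      ∫ ω, (Av d.T' 1 L (d.FF t p j) ω - Av d.T' 1 L' (d.FF t p j) ω) ^ 2 ∂d.P') ≤
    2 * al d t j L + 2 * al d t j L' - 4 * al d t j M + 8 * (L + L') / M := by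
  have hb : ∀ p, |d.s t p *
      ∫ ω, (Av d.T' 1 L (d.FF t p j) ω - Av d.T' 1 L' (d.FF t p j) ω) ^ 2 ∂d.P'| ≤ 4 := by
    intro p
    have h := norm_integral_le_of_norm_le_const (μ := d.P') (C := 4)
      (f := fun ω => (Av d.T' 1 L (d.FF t p j) ω - Av d.T' 1 L' (d.FF t p j) ω) ^ 2)
      (Filter.Eventually.of_forall fun x => by
        have h1 := abs_le.mp (Av_abs (T := d.T') 1 L (FF_abs d t p j) x)
        have h2 := abs_le.mp (Av_abs (T := d.T') 1 L' (FF_abs d t p j) x)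
        rw [Real.norm_eq_abs, abs_pow, ← sq_abs, abs_abs, sq_abs]
        nlinarith [h1.1, h1.2, h2.1, h2.2])
    rw [Real.norm_eq_abs, probReal_univ, mul_one] at h
    rw [abs_mul, abs_of_nonneg (s_nonneg d t p)]
    have h5 := mul_le_mul_of_nonneg_right (s_le d t p)
      (abs_nonneg (∫ ω, (Av d.T' 1 L (d.FF t p j) ω - Av d.T' 1 L' (d.FF t p j) ω) ^ 2 ∂d.P'))
    linarith
  have h1 := (hul d.U).1 (fun m => avgP 2 m fun p => d.s t p *
      ∫ ω, (Av d.T' 1 L (d.FF t p j) ω - Av d.T' 1 L' (d.FF t p j) ω) ^ 2 ∂d.P')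
    ⟨4, fun _ => Pool.Agent.H55.AG.abs_avgP_le (by norm_num) hb⟩
  have h2 : Tendsto (fun m => 2 * avgP 2 m (NN d t j L) + 2 * avgP 2 m (NN d t j L') -
      4 * avgP 2 m (NN d t j M) + (8 * (L + L') / M : ℝ)) (d.U : Filter ℕ)
      (𝓝 (2 * al d t j L + 2 * al d t j L' - 4 * al d t j M + 8 * (L + L') / M)) :=
    ((((al_tendsto hul d t j L).const_mul 2).add ((al_tendsto hul d t j L').const_mul 2)).sub
      ((al_tendsto hul d t j M).const_mul 4)).add_const _
  refine le_of_tendsto_of_tendsto' h1 h2 fun m => ?_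
  refine avgP_lin (by positivity) fun p => ?_
  have h := key d.mp' 1 L L' M hL hL' hM (FF_meas d t p j) (FF_abs d t p j)
  have h3 := mul_le_mul_of_nonneg_left h (s_nonneg d t p)
  have h6 : (0 : ℝ) ≤ 8 * (L + L') / M := by positivity
  have h4 := mul_le_mul_of_nonneg_right (s_le d t p) h6
  unfold NN
  refine h3.trans ?_
  rw [one_mul] at h4
  rw [mul_add, mul_sub, mul_add]
  linarith

/-- Y1 -/
theorem pf_G1 (hul : T_UL) : T_G1 := by
  intro d ε L₁' hε
  have hone : ∀ k : d.Pt × (Fin d.R → Fin d.n), ∃ L₀ : ℕ, 0 < L₀ ∧ ∀ L M : ℕ, L₀ ≤ L →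
      0 < M → al d k.1 k.2 L ≤ al d k.1 k.2 M + ε / 8 := by
    rintro ⟨t, j⟩
    set S : Set ℝ := {a | ∃ L : ℕ, 0 < L ∧ a = al d t j L} with hS
    have hne : S.Nonempty := ⟨_, 1, one_pos, rfl⟩
    have hbd : BddBelow S := ⟨0, by rintro a ⟨L, _, rfl⟩; exact al_nonneg hul d t j L⟩
    obtain ⟨a, ⟨L₁, hL₁, rfl⟩, ha⟩ := Real.lt_sInf_add_pos hne (show (0 : ℝ) < ε / 16 by linarith)
    obtain ⟨K, hK⟩ := exists_nat_gt (3 * L₁ / (ε / 16) : ℝ)
    refine ⟨K + L₁, by omega, fun L M hL hM => ?_⟩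
    have hLpos : (0 : ℝ) < L := by
      have : 0 < L := by omega
      exact_mod_cast this
    have h1 := al_step hul d t j L₁ L hL₁ (by omega)
    have h2 : 3 * (L₁ : ℝ) / L ≤ ε / 16 := by
      rw [div_le_iff₀ hLpos]
      rw [div_lt_iff₀ (by linarith)] at hK
      have : (K : ℝ) ≤ L := by exact_mod_cast (by omega : K ≤ L)
      nlinarith
    have h3 : sInf S ≤ al d t j M := csInf_le hbd ⟨M, hM, rfl⟩
    linarith
  choose L₀ hL₀ using hone
  refine ⟨∑ j, L₀ j + 1 + L₁', by omega, by omega, fun L'' hL'' t j => ?_⟩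
  set L := ∑ j, L₀ j + 1 + L₁' with hL
  have hjL : L₀ (t, j) ≤ L := by
    have := Finset.single_le_sum (f := L₀) (fun i _ => Nat.zero_le _) (Finset.mem_univ (t, j))
    omega
  obtain ⟨M, hM⟩ := exists_nat_gt (8 * (L + L'') / (ε / 2) : ℝ)
  have hM1 : (0 : ℝ) < M := lt_of_le_of_lt (by positivity) hM
  have hMp : 0 < M := by exact_mod_cast hM1
  have h1 := main_ineq hul d t j L L'' M (by omega) (by omega) hMp
  have h2 := (hL₀ (t, j)).2 L M hjL hMp
  have h3 := (hL₀ (t, j)).2 L'' M (by omega) hMp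
  have h4 : 8 * ((L : ℝ) + L'') / M ≤ ε / 2 := by
    rw [div_le_iff₀ hM1]
    rw [div_lt_iff₀ (by linarith)] at hM
    linarith
  linarith

end Pool.Agent.H83.GN.G1x
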