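import Pool.Agent.H83.GN.S1
import Pool.Agent.H32.AG.S2

/-!
Theorem V, row Y2: the frequency of the bad words for the shifted selection (copy of the row X2 of
helper7, `Pool.Agent.H7.LF.X2`).
-/

set_option autoImplicit false

open MeasureTheory ProbabilityTheory Filter Topology Finset
open scoped Nat ENNReal

namespace Pool.Agent.H83.GN.G2x

open Pool.Agent.H24.T2 (Pset)
open Pool.Agent.H67.AG (avgP ul Inv Rt Av SA kap JJ TT InvZ nxt triv tow XN PN TN XX PX TX prX Fac)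
open Pool.Agent.H28.LF (Wd La Cd dm ds)
open Pool.Agent.H28.GN
open Pool.Agent.H83.GN
open Pool.Agent.H32.AG (s2_meas_sel s2_av_shift s2_av_bd s2_iter_meas s2_av_meas s2_int s2_shift
  s2_avgP_mono s2_avgP_add s2_avgP_sum s2_avgP_const s2_avgP_bd)

namespace Y2

theorem x2_shift {Ω : Type} [MeasurableSpace Ω] (P : Measure Ω) (T : Ω ≃ᵐ Ω)
    (hT : MeasurePreserving T P P) (A : Set Ω) (hA : MeasurableSet[Inv T 1] A) (l : ℕ)
    {F : Ω → ℝ} (hF : Measurable F) :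
    ∫ ω in A, F (T^[l] ω) ∂P = ∫ ω in A, F ω ∂P := by
  have h := s2_shift P T hT 1 A hA l hF
  rwa [one_mul] at h

section sec

variable {d : S1} (e : S1E d)

/-- the references selected along the prime `p` -/
def Jx (p : ℕ) (ω : e.Ω) : Fin d.m → Fin d.n :=
  fun i => e.s (e.T^[p * ((i : ℕ) + 1)] ω)

theorem Jx_meas (p : ℕ) : Measurable (Jx e p) :=
  measurable_pi_iff.2 fun _ => e.sm.comp (s2_iter_meas e.T _)

theorem FF_meas (p : ℕ) (j : Fin d.m → Fin d.n) : Measurable (d.FF p j) := by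
  classical
  have hm : Measurable fun ω => (fun i => d.y (j i) (d.T'^[p * ((i : ℕ) + 1)] ω) :
      Fin d.m → Fin d.q) :=
    measurable_pi_iff.2 fun i => (d.ym (j i)).comp (s2_iter_meas d.T' _)
  have hs : MeasurableSet {ω | (fun i => d.y (j i) (d.T'^[p * ((i : ℕ) + 1)] ω)) ∈ d.Bad p} :=
    hm (Set.toFinite (d.Bad p)).measurableSet
  have h2 : d.FF p j = fun ω =>
      if ω ∈ {ω | (fun i => d.y (j i) (d.T'^[p * ((i : ℕ) + 1)] ω)) ∈ d.Bad p} then (1 : ℝ)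
      else 0 := by
    funext ω
    unfold S1.FF
    by_cases h3 : (fun i => d.y (j i) (d.T'^[p * ((i : ℕ) + 1)] ω)) ∈ d.Bad p
    · rw [if_pos h3]
      exact (if_pos h3).symm
    · rw [if_neg h3]
      exact (if_neg h3).symm
  rw [h2]
  exact Measurable.ite hs measurable_const measurable_const

theorem FF_val (p : ℕ) (j : Fin d.m → Fin d.n) (ω : d.Ω') :
    d.FF p j ω = 1 ∨ d.FF p j ω = 0 := by
  unfold S1.FF
  split_ifs
  · exact Or.inl rfl
  · exact Or.inr rfl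

theorem FF_nn (p : ℕ) (j : Fin d.m → Fin d.n) (ω : d.Ω') : 0 ≤ d.FF p j ω := by
  rcases FF_val p j ω with h | h <;> simp [h]

theorem FF_le (p : ℕ) (j : Fin d.m → Fin d.n) (ω : d.Ω') : d.FF p j ω ≤ 1 := by
  rcases FF_val p j ω with h | h <;> simp [h]

theorem FF_bd (p : ℕ) (j : Fin d.m → Fin d.n) (ω : d.Ω') : |d.FF p j ω| ≤ 1 := by
  rw [abs_of_nonneg (FF_nn p j ω)]
  exact FF_le p j ω

/-- the indicator of the bad words of the shifted selection -/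
noncomputable def Ph (p t : ℕ) (ω : e.Ω) : ℝ := d.FF p (Jx e p (e.T^[t] ω)) (e.g ω)

/-- the same with an average -/
noncomputable def Ps (L p t : ℕ) (ω : e.Ω) : ℝ :=
  Av d.T' 1 L (d.FF p (Jx e p (e.T^[t] ω))) (e.g ω)

theorem g_iter (n : ℕ) (ω : e.Ω) : e.g (e.T^[n] ω) = d.T'^[n] (e.g ω) := by
  induction n generalizing ω with
  | zero => rfl
  | succ n ih =>
    rw [Function.iterate_succ_apply, Function.iterate_succ_apply, ih, e.fac.2]

theorem Wd_eq (p t : ℕ) (ω : e.Ω) : Wd e.T (e.yt t) d.m p ω =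
    fun i => d.y (Jx e p (e.T^[t] ω) i) (d.T'^[p * ((i : ℕ) + 1)] (e.g ω)) := by
  funext i
  unfold Wd S1E.yt Jx
  rw [g_iter, ← Function.iterate_add_apply, ← Function.iterate_add_apply, add_comm]

theorem Wd_eq0 (p : ℕ) (ω : e.Ω) : Wd e.T e.ys d.m p ω =
    fun i => d.y (Jx e p (e.T^[0] ω) i) (d.T'^[p * ((i : ℕ) + 1)] (e.g ω)) := by
  rw [← Wd_eq]
  rfl

theorem Ph_meas (p t : ℕ) : Measurable (Ph e p t) := by
  unfold Ph
  exact s2_meas_sel (C := fun j => d.FF p j) ((Jx_meas e p).comp (s2_iter_meas e.T _))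
    (fun j => FF_meas p j) e.fac.1.measurable

theorem Ps_meas (L p t : ℕ) : Measurable (Ps e L p t) := by
  unfold Ps
  exact s2_meas_sel (C := fun j => Av d.T' 1 L (d.FF p j))
    ((Jx_meas e p).comp (s2_iter_meas e.T _)) (fun j => s2_av_meas _ _ _ _ (FF_meas p j))
    e.fac.1.measurable

theorem Ph_bd (p t : ℕ) (ω : e.Ω) : |Ph e p t ω| ≤ 1 := FF_bd _ _ _

theorem Ps_bd (L p t : ℕ) (ω : e.Ω) : |Ps e L p t ω| ≤ 1 := s2_av_bd _ _ _ _ (FF_bd _ _) _

theorem mv_meas (l : ℕ) : Measurable (e.mv l) := by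
  classical
  have h : MeasurableSet {ω | e.s (e.T^[l] ω) = e.s ω} :=
    measurableSet_eq_fun (e.sm.comp (s2_iter_meas e.T _)) e.sm
  have h2 : e.mv l = fun ω => if ω ∈ {ω | e.s (e.T^[l] ω) = e.s ω} then (0 : ℝ) else 1 := by
    funext ω
    unfold S1E.mv
    by_cases h3 : e.s (e.T^[l] ω) = e.s ω
    · rw [if_pos h3]
      exact (if_pos h3).symm
    · rw [if_neg h3]
      exact (if_neg h3).symm
  rw [h2]
  exact Measurable.ite h measurable_const measurable_const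

theorem mv_nn (l : ℕ) (ω : e.Ω) : 0 ≤ e.mv l ω := by
  unfold S1E.mv
  split_ifs <;> norm_num

theorem mv_bd (l : ℕ) (ω : e.Ω) : |e.mv l ω| ≤ 1 := by
  unfold S1E.mv
  split_ifs <;> norm_num

/-- a change of the selected indices is seen by `mv` -/
theorem Jx_move (p l : ℕ) (c : (Fin d.m → Fin d.n) → ℝ) (hc : ∀ j, 0 ≤ c j)
    (hc' : ∀ j, c j ≤ 1) (ω : e.Ω) :
    |c (Jx e p (e.T^[l] ω)) - c (Jx e p ω)| ≤
      ∑ i : Fin d.m, e.mv l (e.T^[p * ((i : ℕ) + 1)] ω) := by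
  by_cases h : Jx e p (e.T^[l] ω) = Jx e p ω
  · rw [h, sub_self, abs_zero]
    exact Finset.sum_nonneg fun i _ => mv_nn e _ _
  · have h1 : ∃ i : Fin d.m, e.s (e.T^[p * ((i : ℕ) + 1)] (e.T^[l] ω)) ≠
        e.s (e.T^[p * ((i : ℕ) + 1)] ω) := by
      by_contra h2
      exact h (funext fun i => by
        by_contra h3
        exact h2 ⟨i, h3⟩)
    obtain ⟨i, hi⟩ := h1
    have h3 : e.mv l (e.T^[p * ((i : ℕ) + 1)] ω) = 1 := by
      unfold S1E.mv
      rw [if_neg]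
      rw [← Function.iterate_add_apply, add_comm, Function.iterate_add_apply]
      exact hi
    have h4 : 1 ≤ ∑ i : Fin d.m, e.mv l (e.T^[p * ((i : ℕ) + 1)] ω) := by
      rw [← h3]
      exact Finset.single_le_sum
        (f := fun i : Fin d.m => e.mv l (e.T^[p * ((i : ℕ) + 1)] ω))
        (fun i _ => mv_nn e _ _) (Finset.mem_univ i)
    rw [abs_le]
    constructor <;> linarith [hc (Jx e p (e.T^[l] ω)), hc' (Jx e p (e.T^[l] ω)),
      hc (Jx e p ω), hc' (Jx e p ω)]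

/-- step 1 -/
theorem step1 (L p t : ℕ) (A : Set e.Ω) (hL : 0 < L) (hA : MeasurableSet[Inv e.T 1] A) :
    |∫ ω in A, Ph e p t ω ∂e.P - ∫ ω in A, Ps e L p t ω ∂e.P| ≤
      (d.m : ℝ) / (L : ℝ) * ∑ l ∈ range L, ∫ ω in A, e.mv l ω ∂e.P := by
  have hL' : (0 : ℝ) < L := by exact_mod_cast hL
  have h1 : ∫ ω in A, Ph e p t ω ∂e.P =
      (∑ l ∈ range L, ∫ ω in A, Ph e p t (e.T^[l] ω) ∂e.P) / L := by
    rw [Finset.sum_congr rfl fun l _ => x2_shift e.P e.T e.mp A hA l (Ph_meas e p t)]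
    rw [Finset.sum_const, Finset.card_range, nsmul_eq_mul]
    field_simp
  have hG : ∀ l, Measurable fun ω =>
      d.FF p (Jx e p (e.T^[t] ω)) (d.T'^[l] (e.g ω)) := by
    intro l
    exact s2_meas_sel (C := fun j ω' => d.FF p j (d.T'^[l] ω'))
      ((Jx_meas e p).comp (s2_iter_meas e.T _))
      (fun j => (FF_meas p j).comp (s2_iter_meas d.T' _)) e.fac.1.measurable
  have h2 : ∫ ω in A, Ps e L p t ω ∂e.P =
      (∑ l ∈ range L, ∫ ω in A, d.FF p (Jx e p (e.T^[t] ω)) (d.T'^[l] (e.g ω)) ∂e.P)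
        / L := by
    rw [← integral_finsetSum _ fun l _ => s2_int (hG l) (fun ω => FF_bd _ _ _), ← integral_div]
    unfold Ps Av
    simp only [one_mul]
  rw [h1, h2, ← sub_div, ← Finset.sum_sub_distrib, abs_div, Nat.abs_cast,
    div_le_iff₀ hL']
  refine (Finset.abs_sum_le_sum_abs _ _).trans ?_
  have h3 : (d.m : ℝ) / (L : ℝ) * (∑ l ∈ range L, ∫ ω in A, e.mv l ω ∂e.P) * L =
      ∑ l ∈ range L, (d.m : ℝ) * ∫ ω in A, e.mv l ω ∂e.P := by
    rw [← Finset.mul_sum]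
    field_simp
  rw [h3]
  refine Finset.sum_le_sum fun l _ => ?_
  have hI1 : Integrable (fun ω => Ph e p t (e.T^[l] ω)) (e.P.restrict A) :=
    s2_int ((Ph_meas e p t).comp (s2_iter_meas e.T _)) (fun ω => Ph_bd e p t _)
  have hI2 : Integrable (fun ω => d.FF p (Jx e p (e.T^[t] ω)) (d.T'^[l] (e.g ω)))
      (e.P.restrict A) := s2_int (hG l) (fun ω => FF_bd _ _ _)
  rw [← integral_sub hI1 hI2]
  refine (abs_integral_le_integral_abs).trans ?_
  have h4 : ∀ i : Fin d.m,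
      ∫ ω in A, e.mv l (e.T^[p * ((i : ℕ) + 1) + t] ω) ∂e.P =
      ∫ ω in A, e.mv l ω ∂e.P := fun i => x2_shift e.P e.T e.mp A hA _ (mv_meas e l)
  have hI3 : ∀ i ∈ (Finset.univ : Finset (Fin d.m)),
      Integrable (fun ω => e.mv l (e.T^[p * ((i : ℕ) + 1) + t] ω)) (e.P.restrict A) :=
    fun i _ => s2_int ((mv_meas e l).comp (s2_iter_meas e.T _)) (fun ω => mv_bd e l _)
  have h5 : (d.m : ℝ) * ∫ ω in A, e.mv l ω ∂e.P =
      ∫ ω in A, ∑ i : Fin d.m, e.mv l (e.T^[p * ((i : ℕ) + 1) + t] ω) ∂e.P := by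
    rw [integral_finsetSum _ hI3, Finset.sum_congr rfl fun i _ => h4 i,
      Finset.sum_const, Finset.card_univ, Fintype.card_fin, nsmul_eq_mul]
  rw [h5]
  refine integral_mono (hI1.sub hI2).abs (integrable_finsetSum _ hI3) fun ω => ?_
  change |Ph e p t (e.T^[l] ω) -
    d.FF p (Jx e p (e.T^[t] ω)) (d.T'^[l] (e.g ω))| ≤
    ∑ i : Fin d.m, e.mv l (e.T^[p * ((i : ℕ) + 1) + t] ω)
  have h6 := Jx_move e p l (fun j => d.FF p j (d.T'^[l] (e.g ω))) (fun j => FF_nn _ _ _)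
    (fun j => FF_le _ _ _) (e.T^[t] ω)
  have h7 : ∀ i : Fin d.m, e.T^[p * ((i : ℕ) + 1)] (e.T^[t] ω) =
      e.T^[p * ((i : ℕ) + 1) + t] ω := by
    intro i
    rw [← Function.iterate_add_apply]
  simp only [h7] at h6
  refine le_trans (le_of_eq ?_) h6
  unfold Ph
  rw [g_iter, ← Function.iterate_add_apply, ← Function.iterate_add_apply, add_comm l t]

/-- step 2: the shift of the selection, for long averages -/
theorem step2 (L'' p t : ℕ) (A : Set e.Ω) (hA : MeasurableSet[Inv e.T 1] A) :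
    |∫ ω in A, Ps e L'' p t ω ∂e.P - ∫ ω in A, Ps e L'' p 0 ω ∂e.P| ≤ 2 * t / (L'' : ℝ) := by
  have h0 : ∫ ω in A, Ps e L'' p 0 ω ∂e.P = ∫ ω in A, Ps e L'' p 0 (e.T^[t] ω) ∂e.P :=
    (x2_shift e.P e.T e.mp A hA t (Ps_meas e L'' p 0)).symm
  rw [h0]
  have hI1 : Integrable (fun ω => Ps e L'' p t ω) (e.P.restrict A) :=
    s2_int (Ps_meas e L'' p t) (fun ω => Ps_bd e L'' p t _)
  have hI2 : Integrable (fun ω => Ps e L'' p 0 (e.T^[t] ω)) (e.P.restrict A) :=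
    s2_int ((Ps_meas e L'' p 0).comp (s2_iter_meas e.T _)) (fun ω => Ps_bd e L'' p 0 _)
  rw [← integral_sub hI1 hI2]
  have hb : ∀ ω, ‖Ps e L'' p t ω - Ps e L'' p 0 (e.T^[t] ω)‖ ≤ 2 * t / (L'' : ℝ) := by
    intro ω
    rw [Real.norm_eq_abs]
    unfold Ps
    simp only [Function.iterate_zero, id_eq]
    have h7 := s2_av_shift d.T' 1 L'' t (d.FF p (Jx e p (e.T^[t] ω))) (FF_bd p _) (e.g ω)
    rw [one_mul, ← g_iter] at h7
    exact h7
  have h1 := norm_integral_le_of_norm_le_const (μ := e.P.restrict A) (Eventually.of_forall hb)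
  rw [Real.norm_eq_abs, measureReal_restrict_apply_univ] at h1
  have h3 : e.P.real A ≤ 1 := measureReal_le_one
  have h4 : (0 : ℝ) ≤ 2 * t / (L'' : ℝ) := by positivity
  calc |∫ ω in A, (Ps e L'' p t ω - Ps e L'' p 0 (e.T^[t] ω)) ∂e.P|
      ≤ 2 * t / (L'' : ℝ) * e.P.real A := h1
    _ ≤ 2 * t / (L'' : ℝ) * 1 := mul_le_mul_of_nonneg_left h3 h4
    _ = _ := mul_one _

/-- step 3: change of the length of the average -/
theorem step3 (L L'' p t : ℕ) (A : Set e.Ω) :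
    |(∫ ω in A, Ps e L p t ω ∂e.P - ∫ ω in A, Ps e L'' p t ω ∂e.P) -
      (∫ ω in A, Ps e L p 0 ω ∂e.P - ∫ ω in A, Ps e L'' p 0 ω ∂e.P)| ≤
      ∑ j : Fin d.m → Fin d.n, ∫ ω in A, |Av d.T' 1 L (d.FF p j) (e.g ω) -
        Av d.T' 1 L'' (d.FF p j) (e.g ω)| ∂e.P := by
  set D : (Fin d.m → Fin d.n) → e.Ω → ℝ := fun j ω =>
    Av d.T' 1 L (d.FF p j) (e.g ω) - Av d.T' 1 L'' (d.FF p j) (e.g ω) with hD
  have hDm : ∀ j, Measurable (D j) := fun j =>
    ((s2_av_meas _ _ _ _ (FF_meas p j)).comp e.fac.1.measurable).sub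
      ((s2_av_meas _ _ _ _ (FF_meas p j)).comp e.fac.1.measurable)
  have hDb : ∀ j ω, |D j ω| ≤ 2 := by
    intro j ω
    have := abs_sub (Av d.T' 1 L (d.FF p j) (e.g ω)) (Av d.T' 1 L'' (d.FF p j) (e.g ω))
    have h1 : |D j ω| = |Av d.T' 1 L (d.FF p j) (e.g ω) - Av d.T' 1 L'' (d.FF p j) (e.g ω)| := rfl
    rw [h1]
    linarith [s2_av_bd d.T' 1 L _ (FF_bd p j) (e.g ω),
      s2_av_bd d.T' 1 L'' _ (FF_bd p j) (e.g ω)]
  have hI : ∀ (N s : ℕ), Integrable (fun ω => Ps e N p s ω) (e.P.restrict A) := fun N s =>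
    s2_int (Ps_meas e N p s) (fun ω => Ps_bd e N p s _)
  have hIa : ∀ j, Integrable (fun ω => |D j ω|) (e.P.restrict A) := fun j =>
    s2_int (hDm j).abs (fun ω => by rw [abs_abs]; exact hDb j ω)
  have hI2 : ∀ s : ℕ, Integrable (fun ω => Ps e L p s ω - Ps e L'' p s ω) (e.P.restrict A) :=
    fun s => (hI L s).sub (hI L'' s)
  rw [← integral_sub (hI L t) (hI L'' t), ← integral_sub (hI L 0) (hI L'' 0),
    ← integral_sub (hI2 t) (hI2 0)]
  refine (abs_integral_le_integral_abs).trans ?_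
  change _ ≤ ∑ j : Fin d.m → Fin d.n, ∫ ω in A, |D j ω| ∂e.P
  rw [← integral_finsetSum _ fun j _ => hIa j]
  refine integral_mono ((hI2 t).sub (hI2 0)).abs
    (integrable_finsetSum _ fun j _ => hIa j) fun ω => ?_
  change |(Ps e L p t ω - Ps e L'' p t ω) - (Ps e L p 0 ω - Ps e L'' p 0 ω)| ≤ ∑ j, |D j ω|
  have h1 : Ps e L p t ω - Ps e L'' p t ω = D (Jx e p (e.T^[t] ω)) ω := rfl
  have h2 : Ps e L p 0 ω - Ps e L'' p 0 ω = D (Jx e p (e.T^[0] ω)) ω := rfl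
  rw [h1, h2]
  by_cases h : Jx e p (e.T^[t] ω) = Jx e p (e.T^[0] ω)
  · rw [h, sub_self, abs_zero]
    exact Finset.sum_nonneg fun j _ => abs_nonneg _
  · refine (abs_sub _ _).trans ?_
    classical
    have h3 : ∑ j ∈ ({Jx e p (e.T^[t] ω), Jx e p (e.T^[0] ω)} : Finset _), |D j ω| =
        |D (Jx e p (e.T^[t] ω)) ω| + |D (Jx e p (e.T^[0] ω)) ω| := Finset.sum_pair h
    rw [← h3]
    exact Finset.sum_le_sum_of_subset_of_nonneg (Finset.subset_univ _)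
      fun j _ _ => abs_nonneg _

theorem bad_real (y : e.Ω → Fin d.q) (p t : ℕ) (A : Set e.Ω)
    (hy : ∀ ω, Wd e.T y d.m p ω =
      fun i => d.y (Jx e p (e.T^[t] ω) i) (d.T'^[p * ((i : ℕ) + 1)] (e.g ω))) :
    e.P.real (A ∩ {ω | Wd e.T y d.m p ω ∈ d.Bad p}) = ∫ ω in A, Ph e p t ω ∂e.P := by
  classical
  have h0 : {ω | Wd e.T y d.m p ω ∈ d.Bad p} = {ω | Ph e p t ω = 1} := by
    ext ω
    change Wd e.T y d.m p ω ∈ d.Bad p ↔ Ph e p t ω = 1
    rw [hy ω]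
    unfold Ph S1.FF
    constructor
    · intro h
      exact if_pos h
    · intro h
      by_contra h2
      rw [if_neg h2] at h
      norm_num at h
  have hm : MeasurableSet {ω | Ph e p t ω = 1} :=
    measurableSet_eq_fun (Ph_meas e p t) measurable_const
  have h1 : e.P.real (A ∩ {ω | Ph e p t ω = 1}) =
      ∫ ω in A, ({ω | Ph e p t ω = 1} : Set e.Ω).indicator (fun _ => (1 : ℝ)) ω ∂e.P := by
    rw [integral_indicator_const _ hm, smul_eq_mul, mul_one, measureReal_restrict_apply hm,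
      Set.inter_comm]
  rw [h0, h1]
  refine integral_congr_ae (Eventually.of_forall fun ω => ?_)
  have h3 : Ph e p t ω = 1 ∨ Ph e p t ω = 0 := FF_val _ _ _
  change ({ω | Ph e p t ω = 1} : Set e.Ω).indicator (fun _ => (1 : ℝ)) ω = Ph e p t ω
  rcases h3 with h4 | h4
  · rw [Set.indicator_of_mem (by simpa using h4), h4]
  · rw [Set.indicator_of_notMem (by
      change ¬ Ph e p t ω = 1
      rw [h4]
      norm_num), h4]

/-- the estimate for one prime -/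
theorem one_prime (L L'' p t : ℕ) (A : Set e.Ω) (hL : 0 < L) (hA : MeasurableSet[Inv e.T 1] A) :
    e.P.real (A ∩ {ω | Wd e.T (e.yt t) d.m p ω ∈ d.Bad p}) ≤
      e.P.real (A ∩ {ω | Wd e.T e.ys d.m p ω ∈ d.Bad p}) +
      2 * (d.m : ℝ) / (L : ℝ) * ∑ l ∈ range L, ∫ ω in A, e.mv l ω ∂e.P +
      ∑ j : Fin d.m → Fin d.n, ∫ ω in A, |Av d.T' 1 L (d.FF p j) (e.g ω) -
        Av d.T' 1 L'' (d.FF p j) (e.g ω)| ∂e.P + 2 * t / (L'' : ℝ) := by
  rw [bad_real e (e.yt t) p t A (Wd_eq e p t), bad_real e e.ys p 0 A (Wd_eq0 e p)]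
  have h1 := step1 e L p t A hL hA
  have h2 := step1 e L p 0 A hL hA
  have h3 := step2 e L'' p t A hA
  have h6 := step3 e L L'' p t A
  have h7 : 2 * (d.m : ℝ) / (L : ℝ) * ∑ l ∈ range L, ∫ ω in A, e.mv l ω ∂e.P =
      (d.m : ℝ) / (L : ℝ) * ∑ l ∈ range L, ∫ ω in A, e.mv l ω ∂e.P +
      (d.m : ℝ) / (L : ℝ) * ∑ l ∈ range L, ∫ ω in A, e.mv l ω ∂e.P := by ring
  rw [h7]
  rw [abs_le] at h1 h2 h3 h6
  linarith [h1.1, h1.2, h2.1, h2.2, h3.1, h3.2, h6.1, h6.2]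

end sec

end Y2

open Y2 in
/-- Y2 -/
theorem pf_S12 (hU : Pool.Agent.H67.AG.T_UL) : T_S12 := by
  intro d e L t A hL hA
  obtain ⟨_, hmono, hadd, _, hconst⟩ := hU d.U
  obtain ⟨hlim', hmono', hadd', _, hconst'⟩ := hU (hyperfilter ℕ)
  set c₁ : ℝ := 2 * (d.m : ℝ) / (L : ℝ) * ∑ l ∈ range L, ∫ ω in A, e.mv l ω ∂e.P with hc₁
  have hc₁0 : 0 ≤ c₁ := by
    refine mul_nonneg (by positivity) (Finset.sum_nonneg fun l _ => ?_)
    exact integral_nonneg fun ω => mv_nn e l ω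
  have hs0 : ∀ p, 0 ≤ d.s p := fun p => by
    rcases d.sv p with h | h <;> simp [h]
  have hs1 : ∀ p, d.s p ≤ 1 := fun p => by
    rcases d.sv p with h | h <;> simp [h]
  set I : (Fin d.m → Fin d.n) → ℕ → ℕ → ℝ := fun j L'' p =>
    ∫ ω in A, |Av d.T' 1 L (d.FF p j) (e.g ω) - Av d.T' 1 L'' (d.FF p j) (e.g ω)| ∂e.P with hI
  set h : (Fin d.m → Fin d.n) → ℕ → ℕ → ℝ := fun j L'' m => avgP 2 m fun p =>
    d.s p * I j L'' p with hh
  have hint0 : ∀ (j : Fin d.m → Fin d.n) (L'' p : ℕ), |I j L'' p| ≤ 2 := by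
    intro j L'' p
    have hb : ∀ ω, ‖|Av d.T' 1 L (d.FF p j) (e.g ω) - Av d.T' 1 L'' (d.FF p j) (e.g ω)|‖ ≤
        2 := by
      intro ω
      rw [Real.norm_eq_abs, abs_abs]
      have := abs_sub (Av d.T' 1 L (d.FF p j) (e.g ω)) (Av d.T' 1 L'' (d.FF p j) (e.g ω))
      linarith [s2_av_bd d.T' 1 L _ (FF_bd p j) (e.g ω),
        s2_av_bd d.T' 1 L'' _ (FF_bd p j) (e.g ω)]
    have h1 := norm_integral_le_of_norm_le_const (μ := e.P.restrict A)
      (Eventually.of_forall hb)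
    rw [Real.norm_eq_abs, measureReal_restrict_apply_univ] at h1
    have h2 : e.P.real A ≤ 1 := measureReal_le_one
    have h3 : |I j L'' p| ≤ 2 * e.P.real A := h1
    linarith
  have hint1 : ∀ (j : Fin d.m → Fin d.n) (L'' p : ℕ), |d.s p * I j L'' p| ≤ 2 := by
    intro j L'' p
    rw [abs_mul, abs_of_nonneg (hs0 p)]
    have := mul_le_mul (hs1 p) (hint0 j L'' p) (abs_nonneg _) (by norm_num : (0 : ℝ) ≤ 1)
    linarith
  have hhb : ∀ j L'' m, |h j L'' m| ≤ 2 := fun j L'' m =>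
    s2_avgP_bd _ _ _ 2 (by norm_num) (fun p => hint1 j L'' p)
  have hPb : ∀ (y : e.Ω → Fin d.q) (m : ℕ),
      |avgP 2 m fun p => d.s p *
        e.P.real (A ∩ {ω | Wd e.T y d.m p ω ∈ d.Bad p})| ≤ 1 := fun y m =>
    s2_avgP_bd _ _ _ 1 (by norm_num) (fun p => by
      rw [abs_of_nonneg (mul_nonneg (hs0 p) measureReal_nonneg)]
      have := mul_le_mul (hs1 p) (measureReal_le_one (μ := e.P)
        (s := A ∩ {ω | Wd e.T y d.m p ω ∈ d.Bad p})) measureReal_nonneg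
        (by norm_num : (0 : ℝ) ≤ 1)
      linarith)
  -- the inequality for every `m` and `L''`
  have key : ∀ L'' m : ℕ, avgP 2 m (fun p => d.s p *
        e.P.real (A ∩ {ω | Wd e.T (e.yt t) d.m p ω ∈ d.Bad p})) ≤
      avgP 2 m (fun p => d.s p *
        e.P.real (A ∩ {ω | Wd e.T e.ys d.m p ω ∈ d.Bad p})) +
        (c₁ + 2 * t / (L'' : ℝ)) + ∑ j, h j L'' m := by
    intro L'' m
    have h4 : (0 : ℝ) ≤ c₁ + 2 * t / (L'' : ℝ) := by positivity
    have h1 := s2_avgP_mono 2 m (fun p => d.s p *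
        e.P.real (A ∩ {ω | Wd e.T (e.yt t) d.m p ω ∈ d.Bad p}))
      (fun p => (d.s p * e.P.real (A ∩ {ω | Wd e.T e.ys d.m p ω ∈ d.Bad p}) +
        (c₁ + 2 * t / (L'' : ℝ))) + ∑ j : Fin d.m → Fin d.n, d.s p * I j L'' p)
      (fun p hp => by
        have h2 := one_prime e L L'' p t A hL hA
        rw [← hc₁] at h2
        have h3 := mul_le_mul_of_nonneg_left h2 (hs0 p)
        have h5 : d.s p * (c₁ + 2 * t / (L'' : ℝ)) ≤ c₁ + 2 * t / (L'' : ℝ) := by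
          have := mul_le_mul_of_nonneg_right (hs1 p) h4
          linarith
        have h6 : ∑ j : Fin d.m → Fin d.n, d.s p * I j L'' p =
            d.s p * ∑ j : Fin d.m → Fin d.n, ∫ ω in A,
            |Av d.T' 1 L (d.FF p j) (e.g ω) - Av d.T' 1 L'' (d.FF p j) (e.g ω)| ∂e.P := by
          rw [Finset.mul_sum]
        rw [h6]
        refine h3.trans ?_
        set X := ∑ j : Fin d.m → Fin d.n, ∫ ω in A,
            |Av d.T' 1 L (d.FF p j) (e.g ω) - Av d.T' 1 L'' (d.FF p j) (e.g ω)| ∂e.P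
        set Y := e.P.real (A ∩ {ω | Wd e.T e.ys d.m p ω ∈ d.Bad p})
        have h7 : d.s p * (Y + c₁ + X + 2 * t / (L'' : ℝ)) =
            d.s p * Y + d.s p * (c₁ + 2 * t / (L'' : ℝ)) + d.s p * X := by ring
        rw [h7]
        linarith)
    refine h1.trans ?_
    rw [s2_avgP_add, s2_avgP_add, s2_avgP_sum]
    have h3 := s2_avgP_const 2 m (c₁ + 2 * t / (L'' : ℝ)) h4
    exact add_le_add (add_le_add le_rfl h3) le_rfl
  -- the limit over `m`
  have hsumb : ∀ (L'' : ℕ) (s : Finset (Fin d.m → Fin d.n)),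
      ∃ C, ∀ m, |∑ j ∈ s, h j L'' m| ≤ C :=
    fun L'' s => ⟨∑ _j ∈ s, 2, fun m => (Finset.abs_sum_le_sum_abs _ _).trans
      (Finset.sum_le_sum fun j _ => hhb j L'' m)⟩
  have hsum : ∀ (L'' : ℕ) (s : Finset (Fin d.m → Fin d.n)),
      ul d.U (fun m => ∑ j ∈ s, h j L'' m) = ∑ j ∈ s, ul d.U (h j L'') := by
    intro L'' s
    induction s using Finset.induction_on with
    | empty => simpa using hconst 0
    | insert a s ha ih =>
      simp only [Finset.sum_insert ha]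
      rw [hadd (fun m => h a L'' m) (fun m => ∑ j ∈ s, h j L'' m) ⟨2, hhb a L''⟩ (hsumb L'' s), ih]
  have hl1 : ∀ L'' : ℕ, La d.U d.s e.P e.T (e.yt t) d.Bad A ≤
      La d.U d.s e.P e.T e.ys d.Bad A + (c₁ + 2 * t / (L'' : ℝ)) + ∑ j, ul d.U (h j L'') := by
    intro L''
    unfold La
    have hb1 : ∃ C, ∀ m, |avgP 2 m (fun p => d.s p *
        e.P.real (A ∩ {ω | Wd e.T (e.yt t) d.m p ω ∈ d.Bad p}))| ≤ C := ⟨1, hPb _⟩
    have hb2 : ∃ C, ∀ m, |avgP 2 m (fun p => d.s p *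
        e.P.real (A ∩ {ω | Wd e.T e.ys d.m p ω ∈ d.Bad p}))| ≤ C := ⟨1, hPb _⟩
    have hb3 : ∃ C : ℝ, ∀ _m : ℕ, |c₁ + 2 * t / (L'' : ℝ)| ≤ C := ⟨_, fun _ => le_rfl⟩
    have hb4 : ∃ C, ∀ m, |avgP 2 m (fun p => d.s p *
        e.P.real (A ∩ {ω | Wd e.T e.ys d.m p ω ∈ d.Bad p})) +
        (c₁ + 2 * t / (L'' : ℝ))| ≤ C := by
      refine ⟨1 + |c₁ + 2 * t / (L'' : ℝ)|, fun m => (abs_add_le _ _).trans ?_⟩
      linarith [hPb e.ys m]
    have hb5 : ∃ C, ∀ m, |avgP 2 m (fun p => d.s p *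
        e.P.real (A ∩ {ω | Wd e.T e.ys d.m p ω ∈ d.Bad p})) +
        (c₁ + 2 * t / (L'' : ℝ)) + ∑ j, h j L'' m| ≤ C := by
      obtain ⟨C1, hC1⟩ := hb4
      obtain ⟨C2, hC2⟩ := hsumb L'' Finset.univ
      exact ⟨C1 + C2, fun m => (abs_add_le _ _).trans (add_le_add (hC1 m) (hC2 m))⟩
    refine (hmono _ _ hb1 hb5 (Eventually.of_forall fun m => key L'' m)).trans ?_
    rw [hadd _ _ hb4 (hsumb L'' Finset.univ), hadd _ _ hb2 hb3, hconst, hsum]
  -- the limit over `L''`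
  have hub : ∀ j L'', |ul d.U (h j L'')| ≤ 2 := by
    intro j L''
    have h1 := hmono (h j L'') (fun _ => 2) ⟨2, hhb j L''⟩ ⟨2, fun _ => by norm_num⟩
      (Eventually.of_forall fun m => (abs_le.1 (hhb j L'' m)).2)
    have h2 := hmono (fun _ => -2) (h j L'') ⟨2, fun _ => by norm_num⟩ ⟨2, hhb j L''⟩
      (Eventually.of_forall fun m => (abs_le.1 (hhb j L'' m)).1)
    rw [hconst] at h1 h2
    exact abs_le.2 ⟨h2, h1⟩
  have hsumb' : ∀ (s : Finset (Fin d.m → Fin d.n)),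
      ∃ C, ∀ L'', |∑ j ∈ s, ul d.U (h j L'')| ≤ C :=
    fun s => ⟨∑ _j ∈ s, 2, fun L'' => (Finset.abs_sum_le_sum_abs _ _).trans
      (Finset.sum_le_sum fun j _ => hub j L'')⟩
  have hsum' : ∀ (s : Finset (Fin d.m → Fin d.n)),
      ul (hyperfilter ℕ) (fun L'' => ∑ j ∈ s, ul d.U (h j L'')) =
        ∑ j ∈ s, ul (hyperfilter ℕ) fun L'' => ul d.U (h j L'') := by
    intro s
    induction s using Finset.induction_on with
    | empty => simpa using hconst' 0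
    | insert a s ha ih =>
      simp only [Finset.sum_insert ha]
      rw [hadd' (fun L'' => ul d.U (h a L'')) (fun L'' => ∑ j ∈ s, ul d.U (h j L''))
        ⟨2, hub a⟩ (hsumb' s), ih]
  have hbt : ∃ C, ∀ L'' : ℕ, |2 * (t : ℝ) / (L'' : ℝ)| ≤ C := by
    refine ⟨2 * t, fun L'' => ?_⟩
    rw [abs_of_nonneg (by positivity)]
    rcases Nat.eq_zero_or_pos L'' with h0 | h0
    · rw [h0]
      simp
    · exact div_le_self (by positivity) (by exact_mod_cast h0)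
  have ht0 : ul (hyperfilter ℕ) (fun L'' : ℕ => 2 * (t : ℝ) / (L'' : ℝ)) = 0 := by
    have h1 := hlim' _ hbt
    have h2 : Tendsto (fun L'' : ℕ => 2 * (t : ℝ) / (L'' : ℝ)) (hyperfilter ℕ : Filter ℕ) (𝓝 0) :=
      (tendsto_const_div_atTop_nhds_zero_nat (2 * (t : ℝ))).mono_left Nat.hyperfilter_le_atTop
    exact tendsto_nhds_unique h1 h2
  set R : ℝ := La d.U d.s e.P e.T e.ys d.Bad A + c₁ with hR
  have hfin := hmono' (fun _ => La d.U d.s e.P e.T (e.yt t) d.Bad A)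
    (fun L'' => R + (2 * t / (L'' : ℝ) + ∑ j, ul d.U (h j L''))) ⟨_, fun _ => le_rfl⟩ (by
      obtain ⟨C1, hC1⟩ := hbt
      obtain ⟨C2, hC2⟩ := hsumb' Finset.univ
      exact ⟨|R| + (C1 + C2), fun L'' => (abs_add_le _ _).trans (add_le_add le_rfl
        ((abs_add_le _ _).trans (add_le_add (hC1 L'') (hC2 L''))))⟩)
    (Eventually.of_forall fun L'' => by
      have := hl1 L''
      change La d.U d.s e.P e.T (e.yt t) d.Bad A ≤
        R + (2 * t / (L'' : ℝ) + ∑ j, ul d.U (h j L''))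
      linarith)
  rw [hconst', hadd' (fun _ => R) _ ⟨_, fun _ => le_rfl⟩ (by
      obtain ⟨C1, hC1⟩ := hbt
      obtain ⟨C2, hC2⟩ := hsumb' Finset.univ
      exact ⟨C1 + C2, fun L'' => (abs_add_le _ _).trans (add_le_add (hC1 L'') (hC2 L''))⟩),
    hadd' _ _ hbt (hsumb' Finset.univ), hconst', ht0, zero_add, hsum'] at hfin
  exact hfin

end Pool.Agent.H83.GN.G2x

namespace Pool.Agent.H83.GN

open Pool.Agent.H67.AG (avgP ul Inv)
open Pool.Agent.H28.LF (La)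
open Pool.Agent.H28.GN

/-- G2 -/
theorem pf_G2 (hU : Pool.Agent.H67.AG.T_UL) : T_G2 := by
  intro d e L k A hL hA
  have h1 : ∀ t : d.Pt, La d.U (d.s t) e.P e.T (e.yt k) (d.Bad t) A ≤
      La d.U (d.s t) e.P e.T e.ys (d.Bad t) A +
      2 * (d.R : ℝ) / (L : ℝ) * ∑ l ∈ range L, ∫ ω in A, e.mv l ω ∂e.P + e.E2 t L A := fun t =>
    G2x.pf_S12 hU (one d t) (oneE e t) L k A hL hA
  have hc : (0 : ℝ) < Fintype.card d.Pt := by exact_mod_cast Fintype.card_pos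
  unfold LaG
  have h2 : ∑ t, La d.U (d.s t) e.P e.T (e.yt k) (d.Bad t) A ≤
      ∑ t, La d.U (d.s t) e.P e.T e.ys (d.Bad t) A +
      Fintype.card d.Pt *
        (2 * (d.R : ℝ) / (L : ℝ) * ∑ l ∈ range L, ∫ ω in A, e.mv l ω ∂e.P) +
      ∑ t, e.E2 t L A := by
    refine (Finset.sum_le_sum fun t _ => h1 t).trans (le_of_eq ?_)
    rw [Finset.sum_add_distrib, Finset.sum_add_distrib, Finset.sum_const, Finset.card_univ,
      nsmul_eq_mul]
  rw [div_le_iff₀ hc]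
  refine h2.trans (le_of_eq ?_)
  field_simp

end Pool.Agent.H83.GN
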