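import Pool.Agent.H83.GN.Nm
import Pool.Agent.H74.AG.S4b
import Pool.Agent.H19.AG.EC

/-!
# Y4: the bound of the switching lemma is additive and the steps are small
(after `Pool.Agent.H49.LF.X6b`)
-/

set_option autoImplicit false

open MeasureTheory ProbabilityTheory Filter Topology Finset
open scoped Nat ENNReal

namespace Pool.Agent.H83.GN.G4x

open Pool.Agent.H24.T2 (Pset)
open Pool.Agent.H67.AG (avgP ul Inv Rt Av SA kap JJ TT InvZ nxt triv tow XN PN TN XX PX TX prX Fac
  T_UL T_EC)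
open Pool.Agent.H28.LF (Wd La Cd dm ds)
open Pool.Agent.H74.AG (AB meas_it meas_Av Av_bd ce_bd)
open Pool.Agent.H28.GN

theorem AB_mono {Ω : Type} [MeasurableSpace Ω] {C C' : ℝ} {f : Set Ω → ℝ} (h : AB C f)
    (hC : C ≤ C') : AB C' f :=
  ⟨h.nn, fun B hB => (h.le B hB).trans hC, h.ad⟩

theorem meas_dm {Ω : Type} [MeasurableSpace Ω] {q : ℕ} {a a' : Ω → Fin q}
    (h : Measurable a) (h' : Measurable a') : Measurable (dm a a') := by
  classical
  unfold dm
  exact Measurable.ite (measurableSet_eq_fun h h') measurable_const measurable_const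

theorem dm_bd {Ω : Type} {q : ℕ} (a a' : Ω → Fin q) (ω : Ω) : 0 ≤ dm a a' ω ∧ dm a a' ω ≤ 1 := by
  unfold dm
  split_ifs <;> norm_num

section meas

variable {d : Sg} (e : SgE d)

theorem meas_y {s : e.Ω → Fin d.n} (hs : Measurable s) :
    Measurable fun ω => d.y (s ω) (e.g ω) := by
  have h : Measurable fun q : Fin d.n × d.Ω' => d.y q.1 q.2 :=
    measurable_from_prod_countable_right fun b => d.ym b
  exact h.comp (hs.prodMk e.fac.1.measurable)

theorem meas_ne {s t : e.Ω → Fin d.n} (hs : Measurable s) (ht : Measurable t) :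
    MeasurableSet {ω : e.Ω | s ω = t ω} := measurableSet_eq_fun hs ht

theorem meas_mv (l : ℕ) : Measurable (e.mv l) := by
  classical
  have h : MeasurableSet {ω : e.Ω | e.s (e.T^[l] ω) = e.s ω} :=
    meas_ne e (e.sm.comp (meas_it e.T _)) e.sm
  unfold SgE.mv
  exact Measurable.ite h measurable_const measurable_const

theorem mv_bd (l : ℕ) (ω : e.Ω) : 0 ≤ e.mv l ω ∧ e.mv l ω ≤ 1 := by
  unfold SgE.mv
  split_ifs <;> norm_num

theorem inv_le {Ω : Type} [m : MeasurableSpace Ω] (T : Ω ≃ᵐ Ω) (n : ℕ) :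
    Inv T n ≤ m := MeasurableSpace.invariants_le _

theorem meas_yt (t : ℕ) : Measurable (e.yt t) := meas_y e (e.sm.comp (meas_it e.T _))

theorem meas_ys : Measurable e.ys := meas_y e e.sm

theorem meas_FF (t : d.Pt) (p : ℕ) (j : Fin d.R → Fin d.n) : Measurable (d.FF t p j) := by
  classical
  have h : Measurable fun ω => fun i => d.y (j i) (d.T'^[p * ((i : ℕ) + 1)] ω) :=
    measurable_pi_iff.mpr fun i => (d.ym (j i)).comp (meas_it d.T' _)
  have h2 : MeasurableSet {ω | (fun i => d.y (j i) (d.T'^[p * ((i : ℕ) + 1)] ω)) ∈ d.Bad t p} :=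
    h (Set.toFinite (d.Bad t p)).measurableSet
  unfold Sg.FF
  exact Measurable.ite h2 measurable_const measurable_const

theorem FF_bd (t : d.Pt) (p : ℕ) (j : Fin d.R → Fin d.n) (ω : d.Ω') : |d.FF t p j ω| ≤ 1 := by
  unfold Sg.FF
  split_ifs <;> norm_num

end meas

theorem AB_int01 {Ω : Type} [MeasurableSpace Ω]
    (s : ℝ) (hs : s = 0 ∨ s = 1) {C : ℝ} (hC : 0 ≤ C) {f : Set Ω → ℝ} (hf : AB C f) :
    AB C (fun B => s * f B) := by
  have h0 : 0 ≤ s := by rcases hs with h | h <;> rw [h] <;> norm_num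
  have h1 : s ≤ 1 := by rcases hs with h | h <;> rw [h] <;> norm_num
  exact AB_mono (hf.mul s h0) (by nlinarith)

/-- the bound of the switching lemma is additive -/
theorem EE_AB (hul : T_UL) (d : Sg) (e : SgE d) (L : ℕ) :
    ∃ C, AB C (e.EE L) := by
  have hmv : ∀ l, AB 1 (fun B => ∫ ω in B, e.mv l ω ∂e.P) := fun l =>
    AB.int e.P (meas_mv e l) (fun ω => (mv_bd e l ω).1)
      (Filter.Eventually.of_forall fun ω => (mv_bd e l ω).2)
  have hcard : (0 : ℝ) ≤ (Fintype.card d.Pt : ℝ)⁻¹ := by positivity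
  have hLam1 : ∀ t : d.Pt, AB 1 (fun B => La d.U (d.s t) e.P e.T e.ys (d.Bad t) B) := fun t => by
    unfold La
    exact AB.ul hul _ fun m => AB.avg zero_le_one _ _ fun p =>
      AB_int01 (d.s t p) (d.sv t p) zero_le_one (AB.inter e.P _)
  obtain ⟨C₁, hLam⟩ : ∃ C, AB C (fun B => LaG d.U d.s e.P e.T e.ys d.Bad B) := by
    have h := (AB.sum (Finset.univ : Finset d.Pt) (C := fun _ => 1) hLam1).mul _ hcard
    have e1 : (fun B => LaG d.U d.s e.P e.T e.ys d.Bad B) = fun B =>
        (Fintype.card d.Pt : ℝ)⁻¹ * ∑ t, La d.U (d.s t) e.P e.T e.ys (d.Bad t) B := by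
      funext B
      unfold LaG
      rw [div_eq_inv_mul]
    rw [e1]
    exact ⟨_, h⟩
  have hE21 : ∀ t : d.Pt, AB (∑ _j ∈ (Finset.univ : Finset (Fin d.R → Fin d.n)), (2 : ℝ))
      (fun B => e.E2 t L B) := fun t =>
    AB.sum (Finset.univ : Finset (Fin d.R → Fin d.n)) (C := fun _ => 2)
    (f := fun j B => ul (hyperfilter ℕ) fun L'' => ul d.U fun m => avgP 2 m fun p =>
      d.s t p *
      ∫ ω in B, |Av d.T' 1 L (d.FF t p j) (e.g ω) - Av d.T' 1 L'' (d.FF t p j) (e.g ω)| ∂e.P)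
    (fun j => AB.ul hul _ fun L'' => AB.ul hul _ fun m => AB.avg (by norm_num) _ _ fun p =>
      AB_int01 (d.s t p) (d.sv t p) (by norm_num) <| AB.int e.P
        (((meas_Av d.T' 1 L (meas_FF t p j)).comp e.fac.1.measurable).sub
          ((meas_Av d.T' 1 L'' (meas_FF t p j)).comp e.fac.1.measurable)).abs
        (fun ω => abs_nonneg _)
        (Filter.Eventually.of_forall fun ω => by
          have h1 := Av_bd d.T' 1 L (FF_bd t p j) (e.g ω)
          have h2 := Av_bd d.T' 1 L'' (FF_bd t p j) (e.g ω)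
          rw [abs_le] at h1 h2 ⊢
          constructor <;> linarith))
  obtain ⟨C₂, hE2⟩ : ∃ C, AB C (fun B => (∑ t, e.E2 t L B) / Fintype.card d.Pt) := by
    have h := (AB.sum (Finset.univ : Finset d.Pt)
      (C := fun _ => ∑ _j ∈ (Finset.univ : Finset (Fin d.R → Fin d.n)), (2 : ℝ)) hE21).mul _ hcard
    have e1 : (fun B => (∑ t, e.E2 t L B) / Fintype.card d.Pt) = fun B =>
        (Fintype.card d.Pt : ℝ)⁻¹ * ∑ t, e.E2 t L B := by
      funext B
      rw [div_eq_inv_mul]
    rw [e1]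
    exact ⟨_, h⟩
  have hfin := (((hLam.mul 2 (by norm_num)).add
    ((AB.sum (range L) fun l => hmv l).mul (2 * (d.R : ℝ) / (L : ℝ))
      (by positivity))).add hE2)
  exact ⟨_, hfin⟩

/-- (Y4) the bound is additive and the steps are small. -/
theorem pf_G4' (hul : T_UL) (hec : T_EC) : T_G4 := by
  intro d e L _
  obtain ⟨C, hC⟩ := EE_AB hul d e L
  refine ⟨fun B hB => hC.nn B (inv_le _ _ _ hB),
    fun B B' hB hB' => hC.ad B B' (inv_le _ _ _ hB) (inv_le _ _ _ hB'), ?_, ?_⟩
  · have h : dm e.ys (e.yt 0) = 0 := by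
      funext ω
      unfold dm
      rw [if_pos]
      · rfl
      · rfl
    filter_upwards with ω
    rw [h, condExp_zero]
    rfl
  · intro t
    have hstep : ∀ ω, |dm e.ys (e.yt (t + 1)) ω - dm e.ys (e.yt t) ω| ≤ e.mv 1 (e.T^[t] ω) := by
      intro ω
      have hit : e.T^[1] (e.T^[t] ω) = e.T^[t + 1] ω := by
        rw [show t + 1 = 1 + t by ring, Function.iterate_add_apply]
      unfold SgE.mv
      rw [hit]
      split_ifs with h
      · have : dm e.ys (e.yt (t + 1)) ω = dm e.ys (e.yt t) ω := by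
          unfold dm SgE.yt
          rw [h]
        rw [this]
        simp
      · have h1 := dm_bd e.ys (e.yt (t + 1)) ω
        have h2 := dm_bd e.ys (e.yt t) ω
        rw [abs_le]
        constructor <;> linarith [h1.1, h1.2, h2.1, h2.2]
    have hint : ∀ {f : e.Ω → ℝ}, Measurable f → (∀ ω, 0 ≤ f ω ∧ f ω ≤ 1) → Integrable f e.P := by
      intro f hf hb
      apply Integrable.of_bound hf.aestronglyMeasurable 1
      filter_upwards with ω
      rw [Real.norm_eq_abs, abs_of_nonneg (hb ω).1]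
      exact (hb ω).2
    have hPt : ∀ s : ℕ, Integrable (dm e.ys (e.yt s)) e.P := fun s =>
      hint (meas_dm (meas_ys e) (meas_yt e s)) (dm_bd e.ys (e.yt s))
    have hmvi : Integrable (fun ω => e.mv 1 (e.T^[t] ω)) e.P :=
      hint ((meas_mv e 1).comp (meas_it e.T _)) fun ω => mv_bd e 1 _
    obtain ⟨hec1, hec2⟩ := hec e.Ω e.P e.T 1 t (e.mv 1) e.mp (meas_mv e 1)
      ⟨1, fun ω => by rw [abs_of_nonneg (mv_bd e 1 ω).1]; exact (mv_bd e 1 ω).2⟩
    have hinv : ∀ (n : ℕ) (ω : e.Ω), (e.P[e.mv 1 | Inv e.T 1]) (e.T^[n] ω) =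
        (e.P[e.mv 1 | Inv e.T 1]) ω := by
      intro n
      induction n with
      | zero => intro ω; simp
      | succ n ih =>
        intro ω
        rw [Function.iterate_add_apply, ih, hec2]
    have h1 : e.P[dm e.ys (e.yt (t + 1)) | Inv e.T 1] ≤ᵐ[e.P]
        e.P[dm e.ys (e.yt t) + (fun ω => e.mv 1 (e.T^[t] ω)) | Inv e.T 1] := by
      apply condExp_mono (hPt _) ((hPt _).add hmvi)
      filter_upwards with ω
      have := (abs_le.mp (hstep ω)).2
      simp only [Pi.add_apply]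
      linarith
    have h2 : e.P[dm e.ys (e.yt t) | Inv e.T 1] ≤ᵐ[e.P]
        e.P[dm e.ys (e.yt (t + 1)) + (fun ω => e.mv 1 (e.T^[t] ω)) | Inv e.T 1] := by
      apply condExp_mono (hPt _) ((hPt _).add hmvi)
      filter_upwards with ω
      have := (abs_le.mp (hstep ω)).1
      simp only [Pi.add_apply]
      linarith
    filter_upwards [h1, h2, condExp_add (hPt t) hmvi (Inv e.T 1),
      condExp_add (hPt (t + 1)) hmvi (Inv e.T 1), hec1] with ω a1 a2 a3 a4 a5
    rw [a3] at a1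
    rw [a4] at a2
    simp only [Pi.add_apply] at a1 a2
    rw [a5, hinv] at a1 a2
    rw [abs_le]
    constructor <;> linarith

/-- (Y4) with the hypotheses of the board. -/
theorem pf_G4 (_hL : Pool.Agent.H28.LF.T_LAB) (hU : Pool.Agent.H67.AG.T_UL) : T_G4 :=
  pf_G4' hU Pool.Agent.H19.AG.pf_EC

end Pool.Agent.H83.GN.G4x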