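import Pool.Agent.H83.GN.Nm
import Pool.Agent.H83.GN.G4

/-!
Theorem V, row Y3: the crossing inequality.
-/

set_option autoImplicit false

open MeasureTheory ProbabilityTheory Filter Topology Finset
open scoped Nat ENNReal

namespace Pool.Agent.H83.GN.G3x

open Pool.Agent.H67.AG (Inv)
open Pool.Agent.H28.LF (Wd La Cd dm ds)
open Pool.Agent.H28.GN
open Pool.Agent.H83.GN.G4x (meas_dm dm_bd meas_ys meas_yt inv_le)

theorem pf_G3 (h2 : T_G2) : T_G3 := by
  intro d e L t B hL hB hcond
  have hm0 : (0 : ℝ) < d.m := by exact_mod_cast d.m0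
  have hkp : 0 ≤ d.κ := d.κ0.le
  have hps : d.ps = d.κ / (2 * d.m) := rfl
  have hps0 : 0 ≤ d.ps := by rw [hps]; positivity
  have hle : 11 / 10 * d.ps ≤ 2 * d.κ / d.m := by
    rw [hps]
    have h1 : 11 / 10 * (d.κ / (2 * (d.m : ℝ))) = 11 / 20 * (d.κ / d.m) := by
      field_simp
      ring
    have h3 : 2 * d.κ / (d.m : ℝ) = 2 * (d.κ / d.m) := by ring
    rw [h1, h3]
    have h4 : 0 ≤ d.κ / (d.m : ℝ) := by positivity
    linarith
  have hys := meas_ys e
  have hyt := meas_yt e t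
  have hdm : Measurable (dm e.ys (e.yt t)) := meas_dm hys hyt
  have hBm : MeasurableSet B := inv_le e.T 1 _ hB
  have key := d.pg e.Ω e.P e.T e.ys (e.yt t) B e.mp hys hyt hB (by
      filter_upwards [hcond] with ω h hω
      exact (h hω).2.trans hle)
  have hint : Integrable (dm e.ys (e.yt t)) e.P := by
    refine Integrable.of_bound hdm.aestronglyMeasurable 1 (ae_of_all _ fun ω => ?_)
    have h := dm_bd e.ys (e.yt t) ω
    rw [Real.norm_eq_abs, abs_of_nonneg h.1]
    exact h.2
  have hce : ∫ ω in B, (e.P[dm e.ys (e.yt t) | Inv e.T 1]) ω ∂e.P =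
      ∫ ω in B, dm e.ys (e.yt t) ω ∂e.P := setIntegral_condExp (inv_le e.T 1) hint hB
  have hlow : d.ps * e.P.real B ≤ ∫ ω in B, (e.P[dm e.ys (e.yt t) | Inv e.T 1]) ω ∂e.P := by
    have h1 : ∫ _ in B, d.ps ∂e.P = d.ps * e.P.real B := by
      rw [setIntegral_const, smul_eq_mul, mul_comm]
    rw [← h1]
    refine setIntegral_mono_on_ae integrableOn_const integrable_condExp.integrableOn hBm ?_
    filter_upwards [hcond] with ω h hω
    exact (h hω).1.le
  rw [hce] at hlow
  have hP0 : 0 ≤ e.P.real B := measureReal_nonneg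
  have hY2 := h2 d e L t B hL hB
  have h1 : 7 / 32 * d.γ * d.κ * e.P.real B ≤
      7 / 16 * d.γ * d.m * ∫ ω in B, dm e.ys (e.yt t) ω ∂e.P := by
    have h3 : 7 / 32 * d.γ * d.κ * e.P.real B =
        7 / 16 * d.γ * d.m * (d.ps * e.P.real B) := by
      rw [hps]
      field_simp
      ring
    rw [h3]
    have hγ := d.γ0
    exact mul_le_mul_of_nonneg_left hlow (by positivity)
  unfold SgE.EE
  linarith

end Pool.Agent.H83.GN.G3x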