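import Pool.Agent.H83.GN.Nm
import Pool.Agent.H79.LF.X7

/-!
# MP_c59857_nt, MP_34b97f_an (THEOREM V): row Y5 of the board `lvv_modules`
(average over the shift)
-/

set_option autoImplicit false

open MeasureTheory ProbabilityTheory Filter Topology Finset
open scoped Nat ENNReal

namespace Pool.Agent.H83.GN.G5x

open Pool.Agent.H67.AG
open Pool.Agent.H28.LF (dm)
open Pool.Agent.H28.GN

variable {d : Sg} (e : SgE d)

theorem ys_meas : Measurable e.ys := by
  have h2 : Measurable (fun p : Fin d.n × d.Ω' => d.y p.1 p.2) :=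
    measurable_from_prod_countable_right fun b => d.ym b
  exact h2.comp (e.sm.prodMk e.fac.1.measurable)

theorem yb_meas (b : Fin d.n) : Measurable (e.yb b) :=
  (d.ym b).comp e.fac.1.measurable

theorem dmb_nn (b : Fin d.n) (ω : e.Ω) : 0 ≤ dm e.ys (e.yb b) ω := by
  unfold dm; split_ifs <;> norm_num

theorem dmb_le (b : Fin d.n) (ω : e.Ω) : dm e.ys (e.yb b) ω ≤ 1 := by
  unfold dm; split_ifs <;> norm_num

theorem dmb_meas (b : Fin d.n) : Measurable (dm e.ys (e.yb b)) := by
  unfold dm
  exact Measurable.ite (measurableSet_eq_fun (ys_meas e) (yb_meas e b)) measurable_const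
    measurable_const

theorem pf_G5 (hM : Pool.Agent.H67.AG.T_ME) : T_G5 := by
  intro d e
  exact Pool.Agent.H79.LF.main_avg e.P e.T e.s (fun b => dm e.ys (e.yb b)) e.sm (dmb_meas e)
    (dmb_nn e) (dmb_le e) hM e.mp d.ps

end Pool.Agent.H83.GN.G5x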