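import Pool.Agent.H83.GN.Nm
import Pool.Agent.H28.LF.T2

/-!
Theorem V, YSW: the switching lemma (from X5, Y3, Y4, Y5, Y6).
-/

set_option autoImplicit false

open MeasureTheory ProbabilityTheory Filter Topology Finset
open scoped Nat ENNReal

namespace Pool.Agent.H83.GN.GSWx

open Pool.Agent.H24.T2 (Pset)
open Pool.Agent.H67.AG (avgP ul Inv Rt Av SA kap JJ TT InvZ nxt triv tow XN PN TN XX PX TX prX Fac)
open Pool.Agent.H28.LF (Wd La Cd dm ds)
open Pool.Agent.H28.GN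

theorem ul_nonneg' (U : Ultrafilter ℕ) (f : ℕ → ℝ) (C : ℝ) (h0 : ∀ n, 0 ≤ f n)
    (h1 : ∀ n, f n ≤ C) : 0 ≤ ul U f := by
  have hm : ((U.map f : Ultrafilter ℝ) : Filter ℝ) ≤ 𝓟 (Set.Icc 0 C) := by
    rw [le_principal_iff]
    have : ∀ᶠ n in (U : Filter ℕ), f n ∈ Set.Icc 0 C := Eventually.of_forall fun n => ⟨h0 n, h1 n⟩
    exact this
  obtain ⟨a, ha, hle⟩ := isCompact_Icc.ultrafilter_le_nhds (U.map f) hm
  have ht : Tendsto f (U : Filter ℕ) (𝓝 a) := hle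
  have : ul U f = a := ht.limUnder_eq
  rw [this]
  exact ha.1

theorem La_nonneg {Ω : Type} [MeasurableSpace Ω] {q : ℕ} (U : Ultrafilter ℕ) (s : ℕ → ℝ)
    (P : Measure Ω) [IsProbabilityMeasure P] (T : Ω ≃ᵐ Ω) (a : Ω → Fin q) {R : ℕ}
    (Bad : ℕ → Set (Fin R → Fin q)) (A : Set Ω) (hs : ∀ p, s p = 0 ∨ s p = 1) :
    0 ≤ La U s P T a Bad A := by
  have b0 : ∀ p, 0 ≤ s p * P.real (A ∩ {ω | Wd T a R p ω ∈ Bad p}) := by
    intro p
    rcases hs p with h | h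
    · rw [h]; simp
    · rw [h, one_mul]; exact measureReal_nonneg
  have b1 : ∀ p, s p * P.real (A ∩ {ω | Wd T a R p ω ∈ Bad p}) ≤ 1 := by
    intro p
    rcases hs p with h | h
    · rw [h]; simp
    · rw [h, one_mul]; exact measureReal_le_one
  refine ul_nonneg' U _ 1 (fun m => ?_) (fun m => ?_)
  · exact div_nonneg (Finset.sum_nonneg fun p _ => b0 p) (Nat.cast_nonneg _)
  · refine div_le_one_of_le₀ ?_ (Nat.cast_nonneg _)
    calc ∑ p ∈ Pset 2 m, s p * P.real (A ∩ {ω | Wd T a R p ω ∈ Bad p})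
        ≤ ∑ p ∈ Pset 2 m, (1 : ℝ) := Finset.sum_le_sum fun p _ => b1 p
      _ = _ := by simp

theorem pf_GSW (h5 : Pool.Agent.H28.LF.T_X5) (h3 : T_G3) (h4 : T_G4) (h7 : T_G5) (h6 : T_G6) :
    T_GSW := by
  intro m R γ κ ε hm hγ hkp hε
  set c : ℝ := 7 / 32 * γ * κ with hc
  have hc0 : 0 < c := by positivity
  set ε' : ℝ := ε / (1 / c + 1) with hε'
  have hε'0 : 0 < ε' := by positivity
  obtain ⟨η, hη, h6'⟩ := h6 m R γ κ ε' hm hγ hkp hε'0
  refine ⟨η, hη, ?_⟩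
  intro d hdm hdR hdγ hdκ
  obtain ⟨L, L₁, hL, h6''⟩ := h6' d hdm hdR hdγ hdκ
  refine ⟨L₁, ?_⟩
  intro e he
  obtain ⟨hEE, hmv⟩ := h6'' e he
  obtain ⟨hb1, hb2, hb3, hb4⟩ := h4 d e L hL
  have hmr : (0 : ℝ) < d.m := by rw [hdm]; exact_mod_cast hm
  have hps : 0 < d.ps := by
    unfold Sg.ps
    rw [hdκ]
    positivity
  have hle : Inv e.T 1 ≤ e.mΩ := MeasurableSpace.invariants_le _
  have hX5 := h5 e.Ω (Inv e.T 1) e.P (fun t => e.P[dm e.ys (e.yt t) | Inv e.T 1])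
    (e.P[e.mv 1 | Inv e.T 1]) (fun B => e.EE L B) d.ps c hle hps hc0
    (fun t => stronglyMeasurable_condExp.measurable) stronglyMeasurable_condExp.measurable hb3 hb4
    hb1 hb2 ?_
  · have hsub : e.P.real {ω | ∀ b, d.ps < (e.P[dm e.ys (e.yb b) | Inv e.T 1]) ω} ≤
        e.P.real ({ω | (e.P[e.mv 1 | Inv e.T 1]) ω ≤ d.ps / 10 ∧
            ∃ t, d.ps < (e.P[dm e.ys (e.yt t) | Inv e.T 1]) ω} ∪
          {ω | d.ps / 10 < (e.P[e.mv 1 | Inv e.T 1]) ω}) := by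
      refine ENNReal.toReal_mono (measure_ne_top _ _) (measure_mono_ae ?_)
      filter_upwards [h7 d e] with ω hω hω'
      by_cases h10 : (e.P[e.mv 1 | Inv e.T 1]) ω ≤ d.ps / 10
      · left
        refine ⟨h10, ?_⟩
        by_contra hcon
        simp only [not_exists, not_lt] at hcon
        obtain ⟨b, hb'⟩ := hω hcon
        exact absurd (hω' b) (not_lt.2 hb')
      · right
        exact not_le.1 h10
    have h1 : e.P.real {ω | (e.P[e.mv 1 | Inv e.T 1]) ω ≤ d.ps / 10 ∧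
        ∃ t, d.ps < (e.P[dm e.ys (e.yt t) | Inv e.T 1]) ω} ≤
        1 / c * (2 * LaG d.U d.s e.P e.T e.ys d.Bad Set.univ + ε') := by
      have h2 := hX5.trans hEE
      rw [one_div, ← div_eq_inv_mul, le_div_iff₀ hc0, mul_comm]
      exact h2
    have h4' := measureReal_union_le (μ := e.P) {ω | (e.P[e.mv 1 | Inv e.T 1]) ω ≤ d.ps / 10 ∧
            ∃ t, d.ps < (e.P[dm e.ys (e.yt t) | Inv e.T 1]) ω}
          {ω | d.ps / 10 < (e.P[e.mv 1 | Inv e.T 1]) ω}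
    have hLa : 0 ≤ LaG d.U d.s e.P e.T e.ys d.Bad Set.univ :=
      div_nonneg (Finset.sum_nonneg fun t _ => La_nonneg _ _ _ _ _ _ _ (d.sv t)) (Nat.cast_nonneg _)
    have h5' : 1 / c * 2 ≤ 10 / (d.γ * d.κ) := by
      rw [hdγ, hdκ, hc, one_div_mul_eq_div, div_le_div_iff₀ (by positivity) (by positivity)]
      have : 0 < γ * κ := by positivity
      nlinarith
    have h6e : (1 / c + 1) * ε' = ε := by
      rw [hε']
      field_simp
    calc e.P.real {ω | ∀ b, d.ps < (e.P[dm e.ys (e.yb b) | Inv e.T 1]) ω}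
        ≤ _ := hsub
      _ ≤ _ := h4'
      _ ≤ 1 / c * (2 * LaG d.U d.s e.P e.T e.ys d.Bad Set.univ + ε') + ε' := add_le_add h1 hmv
      _ = 1 / c * 2 * LaG d.U d.s e.P e.T e.ys d.Bad Set.univ + (1 / c + 1) * ε' := by ring
      _ ≤ _ := by
        rw [h6e]
        gcongr
  · intro t B hB hBt
    have := h3 d e L t B hL hB hBt
    rw [hdγ, hdκ] at this
    exact this

end Pool.Agent.H83.GN.GSWx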