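import Pool.Agent.H83.GN.Nm

/-!
Row W1 of the board V (descent of Theorem V): the mass of the close points is constant.  The proof
follows `Pool.Agent.H34.LF.pf_D1`.
-/

set_option autoImplicit false

open MeasureTheory ProbabilityTheory Filter Topology Finset
open scoped Nat ENNReal

namespace Pool.Agent.H83.GN.H1x

open Pool.Agent.H24.T2 (Pset)
open Pool.Agent.H67.AG (avgP ul Inv Rt Av SA kap JJ TT InvZ nxt triv tow XN PN TN XX PX TX prX Fac)
open Pool.Agent.H28.GN

theorem pf_H1 (hM : T_MBG) (hJ3 : Pool.Agent.H67.AG.T_J3) : T_H1 := by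
  intro c Z hZ hCP
  obtain ⟨hMm, hMT, hMb, -, -⟩ := hM c
  have hm : MeasurableSet c.Ec := measurableSet_le hMm measurable_const
  have hmp : MeasurePreserving c.T c.μ c.μ := c.erg.toMeasurePreserving
  obtain ⟨-, hk⟩ := hJ3 c.X c.μ c.T Z hmp hZ
  have hsym : ∀ x y : c.X, (x, y) ∈ c.Ec → (y, x) ∈ c.Ec := by
    intro x y h
    have h1 : c.M (x, y) ≤ c.ulo := h
    have h2 : c.M (y, x) ≤ c.ulo := by
      rw [← (hMb x y y).2.2.2.1]
      exact h1
    exact h2
  set S : Set (c.X × c.X) := Prod.swap ⁻¹' c.Ec with hS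
  have hSm : MeasurableSet S := measurable_swap hm
  set g : c.X → ℝ := fun x => (kap c.μ Z x).real {x' | (x', x) ∈ c.Ec} with hg
  have hgm : Measurable g := by
    have h1 : Measurable fun x => kap c.μ Z x (Prod.mk x ⁻¹' S) :=
      Kernel.measurable_kernel_prodMk_left hSm
    exact h1.ennreal_toReal
  have hinv : g ∘ c.T =ᵐ[c.μ] g := by
    filter_upwards [hk] with x hx
    have h1 : (kap c.μ Z (c.T x)).real {x' | (x', c.T x) ∈ c.Ec} =
        (kap c.μ Z x).real {x' | (x', x) ∈ c.Ec} := by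
      rw [hx]
      unfold Measure.real
      have hm2 : MeasurableSet {x' | (x', c.T x) ∈ c.Ec} :=
        (measurable_id.prodMk measurable_const) hm
      rw [Measure.map_apply c.T.measurable hm2]
      congr 2
      ext x'
      have h2 : c.M (c.T x', c.T x) = c.M (x', x) := hMT (x', x)
      change c.M (c.T x', c.T x) ≤ c.ulo ↔ c.M (x', x) ≤ c.ulo
      rw [h2]
    exact h1
  obtain ⟨c₀, hc₀⟩ := c.erg.ae_eq_const_of_ae_eq_comp_ae hgm.aestronglyMeasurable hinv
  have hJ : (JJ c.μ Z) c.Ec = ENNReal.ofReal c₀ := by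
    unfold JJ
    rw [Measure.compProd_apply hm]
    have h1 : ∀ᵐ x ∂c.μ, (kap c.μ Z x) (Prod.mk x ⁻¹' c.Ec) = ENNReal.ofReal c₀ := by
      filter_upwards [hc₀] with x hx
      have h2 : Prod.mk x ⁻¹' c.Ec = {x' | (x', x) ∈ c.Ec} := by
        ext x'
        exact ⟨fun h => hsym x x' h, fun h => hsym x' x h⟩
      have h3 : g x = c₀ := hx
      rw [h2, ← h3, hg]
      simp only [Measure.real]
      rw [ENNReal.ofReal_toReal (measure_ne_top _ _)]
    rw [lintegral_congr_ae h1]
    simp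
  have hpos : 0 < c₀ := by
    unfold Gx.CP at hCP
    unfold Measure.real at hCP
    rw [hJ] at hCP
    by_contra hcon
    rw [ENNReal.ofReal_of_nonpos (not_lt.1 hcon)] at hCP
    simp at hCP
  refine ⟨c₀, hpos, ?_, ?_⟩
  · have h1 : (JJ c.μ Z) c.Ec ≤ 1 := by
      unfold JJ
      exact prob_le_one
    rw [hJ] at h1
    exact ENNReal.ofReal_le_one.1 h1
  · filter_upwards [hc₀] with x hx
    exact le_of_eq hx.symm

end Pool.Agent.H83.GN.H1x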