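import Pool.Agent.H83.GN.Nm
import Pool.Agent.H81.AG.FIN
import Pool.Agent.H67.AG.T7

/-!
Theorem V: row W3, choice of the law of the nearby points (after row D3 of helper2).
-/

set_option autoImplicit false

open MeasureTheory ProbabilityTheory Filter Topology Finset
open scoped Nat ENNReal

namespace Pool.Agent.H83.GN.H3x

open Pool.Agent.H28.GN
open Pool.Agent.H67.AG (avgP ul Inv Rt Av SA kap JJ TT InvZ nxt triv tow XN PN TN XX PX TX prX Fac)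

/-- the sets of points with a given word are measurable -/
theorem wd_meas (c : Gx) (Λ : ℕ) (v : Fin Λ → Fin c.q) : MeasurableSet (c.wd Λ ⁻¹' {v}) := by
  have h1 : Measurable (c.wd Λ) :=
    measurable_pi_lambda _ fun l => c.am.comp (c.T.measurable.iterate _)
  exact h1 (measurableSet_singleton v)

theorem pf_H3 (hap : Pool.Agent.H67.AG.T_AP) (hqm : Pool.Agent.H67.AG.T_QM) : T_H3 := by
  intro c Z Λ θ hZ hθ
  -- the functions
  set fv : (Fin Λ → Fin c.q) → c.X → ℝ := fun v x =>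
    (kap c.μ (nxt c.μ c.T Z) x).real (c.wd Λ ⁻¹' {v}) with hfv
  have hfvm : ∀ v, Measurable[(nxt c.μ c.T Z).1] (fv v) := by
    intro v
    have h1 : Measurable[(nxt c.μ c.T Z).1] fun x =>
        condExpKernel c.μ (nxt c.μ c.T Z).1 x (c.wd Λ ⁻¹' {v}) :=
      measurable_condExpKernel (wd_meas c Λ v)
    exact h1.ennreal_toReal
  have hfv0 : ∀ v x, 0 ≤ fv v x ∧ fv v x ≤ 1 := fun v x =>
    ⟨measureReal_nonneg, measureReal_le_one⟩
  have hfvm' : ∀ v, Measurable (fv v) := fun v => (hfvm v).mono (nxt c.μ c.T Z).2 le_rfl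
  set e := Fintype.equivFin (Fin Λ → Fin c.q) with he
  obtain ⟨E, hE, hEi, hE0, hEs⟩ := hap c.X c.μ c.T Z c.erg hZ _ (fun j => fv (e.symm j)) θ
    (fun j => hfvm _) (fun j x => by
      rw [abs_of_nonneg (hfv0 _ x).1]
      exact (hfv0 _ x).2) hθ
  obtain ⟨q1, q2, q3⟩ := (hqm c.X c.μ c.T Z c.erg hZ).2 E hE hEi hE0
  obtain ⟨q4, q5⟩ := (hqm c.X c.μ c.T Z c.erg hZ).1 _ q1 q2 q3
  have hsum : ∑ v, ∫ q in E, |fv v q.1 - fv v q.2| ∂(JJ c.μ Z) ≤ θ * (JJ c.μ Z).real E := by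
    rw [← e.symm.sum_comp (fun v => ∫ q in E, |fv v q.1 - fv v q.2| ∂(JJ c.μ Z))]
    exact hEs
  have hcond : ∀ f : c.X × c.X → ℝ, ∫ q, f q ∂((JJ c.μ Z)[|E]) =
      ((JJ c.μ Z).real E)⁻¹ * ∫ q in E, f q ∂(JJ c.μ Z) := by
    intro f
    rw [ProbabilityTheory.cond, integral_smul_measure, ENNReal.toReal_inv, smul_eq_mul]
    rfl
  have hsum' : ∑ v, ∫ q, |fv v q.1 - fv v q.2| ∂((JJ c.μ Z)[|E]) ≤ θ := by
    simp only [hcond]
    rw [← Finset.mul_sum, inv_mul_le_iff₀ hE0, mul_comm]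
    exact hsum
  have hi : ∀ v, Integrable (fun q : c.X × c.X => |fv v q.1 - fv v q.2|) ((JJ c.μ Z)[|E]) := by
    intro v
    refine Pool.Agent.H81.AG.int_of_bdd _ _ (((hfvm' v).comp measurable_fst).sub
      ((hfvm' v).comp measurable_snd)).abs (fun q => abs_nonneg _) fun q => ?_
    rw [abs_le]
    constructor <;> linarith [(hfv0 v q.1).1, (hfv0 v q.1).2, (hfv0 v q.2).1, (hfv0 v q.2).2]
  refine ⟨(JJ c.μ Z)[|E], q1, q2, q3, q4, q5, ?_⟩
  have h1 : ∫ q, ∑ v, |(kap c.μ (nxt c.μ c.T Z) q.1).real (c.wd Λ ⁻¹' {v}) -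
      (kap c.μ (nxt c.μ c.T Z) q.2).real (c.wd Λ ⁻¹' {v})| ∂((JJ c.μ Z)[|E]) =
      ∑ v, ∫ q, |fv v q.1 - fv v q.2| ∂((JJ c.μ Z)[|E]) :=
    integral_finsetSum _ fun v _ => hi v
  rw [h1]
  exact hsum'

end Pool.Agent.H83.GN.H3x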