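import Pool.Agent.H83.GN.Nm
import Pool.Agent.H28.LF.T2

/-!
Theorem V: row W9 (the last step of the descent).
-/

set_option autoImplicit false

open MeasureTheory ProbabilityTheory Filter Topology Finset
open scoped Nat ENNReal

namespace Pool.Agent.H83.GN.H9x

open Pool.Agent.H24.T2 (Pset)
open Pool.Agent.H67.AG (avgP ul Inv Rt Av SA kap JJ TT InvZ nxt triv tow XN PN TN XX PX TX prX Fac)
open Pool.Agent.H40.AG (QQ dg)
open Pool.Agent.H28.LF (Wd La Cd dm ds)
open Pool.Agent.H28.GN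

/-! ### measurability -/

theorem wd_meas (c : Gx) (Λ : ℕ) : Measurable (c.wd Λ) :=
  measurable_pi_iff.2 fun _ => c.am.comp (c.T.measurable.iterate _)

open Classical in
/-- the selection as a function of the words -/
noncomputable def selW (c : Gx) (Λ n : ℕ)
    (w : (Fin (n + 1) → Fin Λ → Fin c.q) × (Fin Λ → Fin c.q)) : Fin (n + 1) :=
  if h : (univ.filter fun b => ∃ b₁, c.hd (w.1 b) (w.1 b₁) ≤ c.uh / 2 ∧
      c.hd (w.1 b₁) w.2 ≤ 2 * c.ulo).Nonempty then
    (univ.filter fun b => ∃ b₁, c.hd (w.1 b) (w.1 b₁) ≤ c.uh / 2 ∧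
      c.hd (w.1 b₁) w.2 ≤ 2 * c.ulo).min' h else 0

theorem sel_eq (c : Gx) (Λ n : ℕ) (p : XX c.X (n + 1)) :
    c.sel Λ n p = selW c Λ n (fun b => c.wd Λ (p.2.1 b), c.wd Λ p.2.2) := rfl

theorem ref_meas {X : Type} [MeasurableSpace X] {n : ℕ} (b : Fin n) :
    Measurable fun p : XX X n => p.2.1 b :=
  (measurable_pi_apply b).comp (measurable_fst.comp measurable_snd)

theorem last_meas {X : Type} [MeasurableSpace X] {n : ℕ} :
    Measurable fun p : XX X n => p.2.2 := measurable_snd.comp measurable_snd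

theorem sel_meas (c : Gx) (Λ n : ℕ) : Measurable (c.sel Λ n) := by
  have h1 : Measurable fun p : XX c.X (n + 1) =>
      ((fun b => c.wd Λ (p.2.1 b), c.wd Λ p.2.2) :
        (Fin (n + 1) → Fin Λ → Fin c.q) × (Fin Λ → Fin c.q)) :=
    (measurable_pi_iff.2 fun b => (wd_meas c Λ).comp (ref_meas b)).prodMk
      ((wd_meas c Λ).comp last_meas)
  have h2 : Measurable (selW c Λ n) := Measurable.of_discrete
  have h3 : c.sel Λ n = (selW c Λ n) ∘ fun p : XX c.X (n + 1) =>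
      ((fun b => c.wd Λ (p.2.1 b), c.wd Λ p.2.2) :
        (Fin (n + 1) → Fin Λ → Fin c.q) × (Fin Λ → Fin c.q)) := funext fun p => sel_eq c Λ n p
  rw [h3]
  exact h2.comp h1

theorem sym_meas (c : Gx) (Λ n : ℕ) :
    Measurable fun p : XX c.X (n + 1) => c.a (p.2.1 (c.sel Λ n p)) := by
  have h : Measurable fun q : Fin (n + 1) × (Fin (n + 1) → c.X) => q.2 q.1 :=
    measurable_from_prod_countable_right fun b => measurable_pi_apply b
  exact c.am.comp (h.comp ((sel_meas c Λ n).prodMk (measurable_fst.comp measurable_snd)))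

theorem dm_meas {Ω : Type} [MeasurableSpace Ω] {q : ℕ} {a a' : Ω → Fin q}
    (h : Measurable a) (h' : Measurable a') : Measurable (dm a a') := by
  classical
  unfold dm
  exact Measurable.ite (measurableSet_eq_fun h h') measurable_const measurable_const

theorem dm_nn {Ω : Type} {q : ℕ} (a a' : Ω → Fin q) (ω : Ω) : 0 ≤ dm a a' ω ∧ dm a a' ω ≤ 1 := by
  unfold dm
  split_ifs <;> norm_num

theorem dm_int {Ω : Type} [MeasurableSpace Ω] {P : Measure Ω} [IsProbabilityMeasure P] {q : ℕ}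
    {a a' : Ω → Fin q} (h : Measurable a) (h' : Measurable a') : Integrable (dm a a') P :=
  Integrable.of_bound (dm_meas h h').aestronglyMeasurable 1 (Eventually.of_forall fun ω => by
    rw [Real.norm_eq_abs, abs_of_nonneg (dm_nn a a' ω).1]
    exact (dm_nn a a' ω).2)

/-- the triangle inequality for mismatches -/
theorem dm_tri {Ω : Type} {q : ℕ} (a b d : Ω → Fin q) (ω : Ω) :
    dm b d ω ≤ dm a b ω + dm a d ω := by
  unfold dm
  by_cases h1 : a ω = b ω
  · by_cases h2 : a ω = d ω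
    · rw [if_pos h1, if_pos h2, if_pos (h1.symm.trans h2)]
      norm_num
    · rw [if_pos h1, if_neg h2]
      split_ifs <;> norm_num
  · rw [if_neg h1]
    split_ifs <;> norm_num

theorem dm_real {Ω : Type} [MeasurableSpace Ω] {P : Measure Ω} {q : ℕ}
    {a a' : Ω → Fin q} (h : Measurable a) (h' : Measurable a') :
    ∫ ω, dm a a' ω ∂P = P.real {ω | a ω ≠ a' ω} := by
  have hne : MeasurableSet {ω | a ω ≠ a' ω} := (measurableSet_eq_fun h h').compl
  have h3 : dm a a' = ({ω | a ω ≠ a' ω}).indicator (fun _ => (1 : ℝ)) := by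
    funext x
    unfold dm
    by_cases h : a x = a' x
    · rw [if_pos h, Set.indicator_of_notMem]
      exact fun h' => h' h
    · rw [if_neg h, Set.indicator_of_mem]
      exact h
  rw [h3, integral_indicator_const _ hne, smul_eq_mul, mul_one]

/-- the conditional triangle inequality -/
theorem ce_tri {Ω : Type} (m : MeasurableSpace Ω) [mΩ : MeasurableSpace Ω] {P : Measure Ω}
    [IsProbabilityMeasure P] {q : ℕ} {a b d : Ω → Fin q} (ha : Measurable a)
    (hb : Measurable b) (hd : Measurable d) :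
    P[dm b d | m] ≤ᵐ[P] fun ω => (P[dm a b | m]) ω + (P[dm a d | m]) ω := by
  have h1 : P[dm b d | m] ≤ᵐ[P] P[dm a b + dm a d | m] :=
    condExp_mono (dm_int hb hd) ((dm_int ha hb).add (dm_int ha hd))
      (Eventually.of_forall fun ω => dm_tri a b d ω)
  filter_upwards [h1, condExp_add (dm_int ha hb) (dm_int ha hd) m] with ω h2 h3
  rw [h3] at h2
  exact h2

/-- W9: the last step of the descent. -/
theorem pf_H9 (hG : T_GPG) (hM : T_MBG) (hN : T_NMP) (hQ : Pool.Agent.H40.AG.T_QQA)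
    (hF : Pool.Agent.H40.AG.T_PXF) (hL : Pool.Agent.H40.AG.T_PXL)
    (hT : Pool.Agent.H40.AG.T_PXT) (hI : Pool.Agent.H67.AG.T_NXI) : T_H9 := by
  intro c Z n Λ R hR hZ hZ' hΛ hRT hRJ hR1 hR2 h1 h2
  set Z' := nxt c.μ c.T Z with hZdef
  have hmp : MeasurePreserving c.T c.μ c.μ := c.erg.toMeasurePreserving
  have hZZ : Z.1 ≤ Z'.1 := (hI c.X c.μ c.T Z c.erg hZ).2.1
  obtain ⟨hP, _, _, hLb, _, _⟩ := hL c.X c.μ Z' (n + 1) R hR1 hR2
  have hPT := hT c.X c.μ c.T Z' (n + 1) R hmp hZ' hR1 hR2 hRT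
  obtain ⟨_, _, hFb, hFx, _⟩ := hF c.X c.μ c.T Z' (n + 1) R hmp hZ' hR1 hR2 hRT
  set Q := PX c.μ Z' (n + 1) R with hQdef
  set S := TX c.T (n + 1) with hSdef
  set f : XX c.X (n + 1) → Fin c.q := fun p => c.a (p.2.1 (c.sel Λ n p)) with hf
  set fx : XX c.X (n + 1) → Fin c.q := fun p => c.a p.2.2 with hfx
  set fb : Fin (n + 1) → XX c.X (n + 1) → Fin c.q := fun b p => c.a (p.2.1 b) with hfb
  have mf : Measurable f := sym_meas c Λ n
  have mfx : Measurable fx := c.am.comp last_meas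
  have mfb : ∀ b, Measurable (fb b) := fun b => c.am.comp (ref_meas b)
  obtain ⟨_, hu0, hu1, _, _⟩ := hN c
  have hinv : Inv S 1 ≤ (inferInstance : MeasurableSpace (XX c.X (n + 1))) :=
    MeasurableSpace.invariants_le _
  -- the first set
  have hm : (0 : ℝ) < c.m := by exact_mod_cast c.m0
  have hps : c.κ / (2 * c.m) = c.uh / 4 := by
    unfold Gx.uh
    field_simp
    norm_num
  -- Markov
  have h3 : Q.real {p | c.uh / 4 ≤ (Q[dm f fx | Inv S 1]) p} ≤ 1 / 25 := by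
    have hnn : 0 ≤ᵐ[Q] Q[dm f fx | Inv S 1] :=
      condExp_nonneg (Eventually.of_forall fun p => (dm_nn f fx p).1)
    have h4 := mul_meas_ge_le_integral_of_nonneg hnn integrable_condExp (c.uh / 4)
    rw [integral_condExp hinv, dm_real mf mfx] at h4
    have h5 : Q.real {p | f p ≠ fx p} ≤ 10 * c.ulo := h1
    have h6 : 0 < c.uh := by linarith
    have h7 : c.uh / 4 * Q.real {p | c.uh / 4 ≤ (Q[dm f fx | Inv S 1]) p} ≤
        c.uh / 4 * (1 / 25) := by linarith
    exact le_of_mul_le_mul_left h7 (by linarith)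
  -- the third set
  have hcov : ∀ᵐ p ∂Q, p ∈ {p | ∀ b : Fin (n + 1), c.κ / (2 * c.m) <
      (Q[dm f (fb b) | Inv S 1]) p} ∪ ({p | c.uh / 4 ≤ (Q[dm f fx | Inv S 1]) p} ∪
        ⋃ b : Fin (n + 1), {p | (p.2.1 b, p.2.2) ∈ c.Ec}) := by
    have k1 : ∀ᵐ p ∂Q, ∀ b, (Q[dm (fb b) fx | Inv S 1]) p ≤
        (Q[dm f (fb b) | Inv S 1]) p + (Q[dm f fx | Inv S 1]) p :=
      ae_all_iff.2 fun b => ce_tri (Inv S 1) mf (mfb b) mfx
    have k2 : ∀ᵐ p ∂Q, ∀ b : Fin (n + 1), (Q[dm (fb b) fx | Inv S 1]) p =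
        c.M (p.2.1 b, p.2.2) :=
      ae_all_iff.2 fun b => (hM c).2.2.2.2 _ Q S _ _ hPT (hFb b) hFx
    have k3 : ∀ᵐ p ∂Q, ∀ b : Fin (n + 1), ¬ (c.ulo < c.M (p.2.1 b, p.2.2) ∧
        c.M (p.2.1 b, p.2.2) ≤ c.uh) :=
      ae_all_iff.2 fun b => hG c _ Q S _ _ hPT (hFb b) hFx
    filter_upwards [k1, k2, k3] with p l1 l2 l3
    by_cases hA : ∀ b : Fin (n + 1), c.κ / (2 * c.m) < (Q[dm f (fb b) | Inv S 1]) p
    · exact Or.inl hA
    · by_cases hB : c.uh / 4 ≤ (Q[dm f fx | Inv S 1]) p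
      · exact Or.inr (Or.inl hB)
      · refine Or.inr (Or.inr ?_)
        push Not at hA hB
        obtain ⟨b, hb⟩ := hA
        rw [hps] at hb
        have l4 := l1 b
        rw [l2 b] at l4
        refine Set.mem_iUnion.2 ⟨b, ?_⟩
        change c.M (p.2.1 b, p.2.2) ≤ c.ulo
        by_contra hcon
        push Not at hcon
        exact l3 b ⟨hcon, by linarith⟩
  have h8 : (1 : ℝ) ≤ Q.real {p | ∀ b : Fin (n + 1), c.κ / (2 * c.m) <
      (Q[dm f (fb b) | Inv S 1]) p} + (Q.real {p | c.uh / 4 ≤ (Q[dm f fx | Inv S 1]) p} +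
        Q.real (⋃ b : Fin (n + 1), {p : XX c.X (n + 1) | (p.2.1 b, p.2.2) ∈ c.Ec})) := by
    have h9 : Q.real ({p | ∀ b : Fin (n + 1), c.κ / (2 * c.m) <
      (Q[dm f (fb b) | Inv S 1]) p} ∪ ({p | c.uh / 4 ≤ (Q[dm f fx | Inv S 1]) p} ∪
        ⋃ b : Fin (n + 1), {p | (p.2.1 b, p.2.2) ∈ c.Ec})) = 1 := by
      rw [measureReal_def, measure_eq_measure_of_null_sdiff (Set.subset_univ _),
        measure_univ, ENNReal.toReal_one]
      rw [← Set.compl_eq_univ_sdiff]
      exact hcov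
    rw [← h9]
    exact (measureReal_union_le _ _).trans
      (add_le_add le_rfl (measureReal_union_le _ _))
  have h10 : 0 < Q.real (⋃ b : Fin (n + 1), {p : XX c.X (n + 1) | (p.2.1 b, p.2.2) ∈ c.Ec}) := by
    linarith
  -- some reference
  have h11 : ∃ b : Fin (n + 1), Q {p : XX c.X (n + 1) | (p.2.1 b, p.2.2) ∈ c.Ec} ≠ 0 := by
    by_contra hcon
    push Not at hcon
    have h12 : Q (⋃ b : Fin (n + 1), {p : XX c.X (n + 1) | (p.2.1 b, p.2.2) ∈ c.Ec}) = 0 :=
      measure_iUnion_null hcon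
    rw [measureReal_def, h12] at h10
    simp at h10
  obtain ⟨b, hb⟩ := h11
  have hEm : MeasurableSet c.Ec := MeasurableSpace.invariants_le _ _ (hM c).2.2.2.1
  have h13 : QQ c.μ Z' R c.Ec ≠ 0 := by
    rw [← (hLb b).measure_preimage hEm.nullMeasurableSet]
    exact hb
  have h14 : QQ c.μ Z' R ≪ JJ c.μ Z := hQ c.X c.μ Z Z' R hZZ hRJ
  have h15 : (JJ c.μ Z) c.Ec ≠ 0 := fun h => h13 (h14 h)
  have : IsProbabilityMeasure (JJ c.μ Z) := by
    unfold Pool.Agent.H67.AG.JJ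
    infer_instance
  change 0 < (JJ c.μ Z).real c.Ec
  rw [measureReal_def]
  exact ENNReal.toReal_pos h15 (measure_ne_top _ _)

end Pool.Agent.H83.GN.H9x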