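import Pool.Agent.H83.GN.Nm

/-!
# MP_c59857_nt, Theorem G: row TPG (the top of the tower)
-/

set_option autoImplicit false

open MeasureTheory ProbabilityTheory Filter Topology Finset
open scoped Nat ENNReal

namespace Pool.Agent.H83.GN.TPGx

open Pool.Agent.H28.GN
open Pool.Agent.H67.AG (avgP ul Inv Rt Av SA kap JJ TT InvZ nxt triv tow XN PN TN XX PX TX prX Fac)
open Pool.Agent.H28.LF (Wd La Cd dm ds)

theorem inv_le {Ω : Type} [MeasurableSpace Ω] (T : Ω ≃ᵐ Ω) (n : ℕ) : Inv T n ≤ ‹MeasurableSpace Ω› :=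
  fun _ h => h.1

/-- the conditional expectation of an ergodic system is constant -/
theorem condExp_erg {Ω : Type} [MeasurableSpace Ω] {P : Measure Ω} [IsProbabilityMeasure P]
    {T : Ω ≃ᵐ Ω} (h : Ergodic T P) (f : Ω → ℝ) :
    ∀ᵐ ω ∂P, (P[f | Inv T 1]) ω = ∫ ω, f ω ∂P := by
  have h1 : Measurable[Inv T 1] (P[f | Inv T 1]) := stronglyMeasurable_condExp.measurable
  have h2 : (P[f | Inv T 1]) ∘ (T^[1]) = P[f | Inv T 1] :=
    MeasurableSpace.comp_eq_of_measurable_invariants h1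
  have h3 : (P[f | Inv T 1]) ∘ T =ᵐ[P] P[f | Inv T 1] := by
    rw [Function.iterate_one] at h2
    rw [h2]
  have h4 : AEStronglyMeasurable (P[f | Inv T 1]) P :=
    (stronglyMeasurable_condExp.mono (inv_le T 1)).aestronglyMeasurable
  obtain ⟨C, hC⟩ := h.ae_eq_const_of_ae_eq_comp_ae h4 h3
  have h5 : ∫ ω, (P[f | Inv T 1]) ω ∂P = ∫ ω, f ω ∂P := integral_condExp (inv_le T 1)
  have h6 : ∫ ω, (P[f | Inv T 1]) ω ∂P = C := by
    rw [integral_congr_ae hC]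
    simp
  filter_upwards [hC] with ω hω
  rw [hω, ← h5, h6]
  rfl

theorem vv_meas (c : Gx) (Z : SA c.X) : Measurable (vvG c.μ c.a Z) := by
  have h : ∀ b, Measurable (wtG c.μ c.a Z b) := fun b =>
    (stronglyMeasurable_condExp.mono Z.2).measurable
  unfold vvG
  fun_prop

theorem pf_TPG (hG : T_GPG) (hJ : T_JVG)
    (hM : T_MBG) (hN : T_NMP) (hJ2 : Pool.Agent.H67.AG.T_J2) (hJ3 : Pool.Agent.H67.AG.T_J3)
    (hTW : Pool.Agent.H67.AG.T_TW) : T_TPG := by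
  intro c
  obtain ⟨hγ1, hulo, hgap, huh, hulo'⟩ := hN c
  have hmp : MeasurePreserving c.T c.μ c.μ := c.erg.toMeasurePreserving
  have hm0 : (0 : ℝ) < c.m := by exact_mod_cast c.m0
  have hkp : 0 < c.κ := c.κ0
  have hγ0 := c.γ0
  obtain ⟨Z, hZ⟩ : ∃ Z, Z = tow c.μ c.T c.R := ⟨_, rfl⟩
  have hV : ∫ x, vvG c.μ c.a Z x ∂c.μ < c.κ / c.m := by
    by_contra hge
    push Not at hge
    obtain ⟨V, hVd⟩ : ∃ V, V = ∫ x, vvG c.μ c.a Z x ∂c.μ := ⟨_, rfl⟩
    rw [← hVd] at hge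
    have hu0 : 0 < c.κ / c.m := by positivity
    have hV0 : 0 < V := lt_of_lt_of_le hu0 hge
    obtain ⟨th, hth⟩ : ∃ th, th = c.κ / (c.m * V) := ⟨_, rfl⟩
    have hth0 : 0 ≤ th := by rw [hth]; positivity
    have hth1 : th ≤ 1 := by
      rw [hth, div_le_one (by positivity)]
      rw [div_le_iff₀ hm0] at hge
      linarith
    have hthV : th * V = c.κ / c.m := by
      rw [hth]; field_simp
    have hint : ∫ x, th * vvG c.μ c.a Z x ∂c.μ = c.κ / c.m := by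
      rw [integral_const_mul, ← hVd, hthV]
    have hcond : ∀ᵐ ω ∂c.μ, (c.μ[(fun x => th * vvG c.μ c.a Z x) | Inv c.T 1]) ω ≤
        2 * c.κ / c.m := by
      filter_upwards [condExp_erg c.erg fun x => th * vvG c.μ c.a Z x] with ω hω
      rw [hω, hint, mul_div_assoc]
      linarith
    have hR' := c.tp c.R th (Nat.le_succ _) hth0 hth1 (by rw [← hZ]; exact hcond)
    rw [← hZ, hint] at hR'
    have hrel := c.rel
    have e1 : 7 / 16 * c.γ * (c.m : ℝ) * (c.κ / c.m) = 7 / 16 * (c.γ * c.κ) := by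
      field_simp
    have e0 : 0 < c.γ * c.κ := mul_pos hγ0 hkp
    have e2 : c.γ ^ 2 * c.κ ≤ c.γ * c.κ := by
      have := mul_le_mul_of_nonneg_left hγ1 e0.le
      nlinarith
    rw [e1] at hR'
    linarith
  -- the self-joining
  obtain ⟨hP, hf, hs, _⟩ := hJ2 c.X c.μ Z
  have hT : MeasurePreserving (TT c.T) (JJ c.μ Z) (JJ c.μ Z) :=
    (hJ3 c.X c.μ c.T Z hmp (by rw [hZ]; exact hTW c.X c.μ c.T c.erg c.R)).1
  have hF1 : Fac (JJ c.μ Z) (TT c.T) c.μ c.T Prod.fst := ⟨hf, fun _ => rfl⟩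
  have hF2 : Fac (JJ c.μ Z) (TT c.T) c.μ c.T Prod.snd := ⟨hs, fun _ => rfl⟩
  obtain ⟨hMm, _, hMb, _, hMc⟩ := hM c
  have hcM := hMc (c.X × c.X) (JJ c.μ Z) (TT c.T) Prod.fst Prod.snd hT hF1 hF2
  have hg := hG c (c.X × c.X) (JJ c.μ Z) (TT c.T) Prod.fst Prod.snd hT hF1 hF2
  have hMi : Integrable c.M (JJ c.μ Z) := by
    refine Integrable.of_bound hMm.aestronglyMeasurable 1 (ae_of_all _ fun p => ?_)
    have h := hMb p.1 p.2 p.1
    rw [Real.norm_eq_abs, abs_of_nonneg h.1]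
    exact h.2.1
  have hIM : ∫ p, c.M p ∂(JJ c.μ Z) = ∫ x, vvG c.μ c.a Z x ∂c.μ := by
    have h1 : ∫ p, c.M p ∂(JJ c.μ Z) = ∫ p, ((JJ c.μ Z)[dm (fun ω : c.X × c.X => c.a ω.1)
        (fun ω => c.a ω.2) | Inv (TT c.T) 1]) p ∂(JJ c.μ Z) :=
      (integral_congr_ae hcM).symm
    rw [h1, integral_condExp (inv_le (TT c.T) 1), hJ c Z]
    have hms : MeasurableSet {p : c.X × c.X | c.a p.1 ≠ c.a p.2} :=
      (measurableSet_eq_fun (c.am.comp measurable_fst) (c.am.comp measurable_snd)).compl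
    have h2 : dm (fun ω : c.X × c.X => c.a ω.1) (fun ω => c.a ω.2) =
        {p : c.X × c.X | c.a p.1 ≠ c.a p.2}.indicator (fun _ => (1 : ℝ)) := by
      funext p
      unfold dm
      by_cases h : c.a p.1 = c.a p.2
      · rw [Set.indicator_of_notMem (by simp [h])]
        simp [h]
      · rw [Set.indicator_of_mem (by simpa using h)]
        simp [h]
    rw [h2, integral_indicator_const _ hms]
    simp
  -- end
  show 0 < (JJ c.μ (tow c.μ c.T c.R)).real c.Ec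
  rw [← hZ]
  by_contra hneg
  have hz : (JJ c.μ Z).real c.Ec = 0 := le_antisymm (not_lt.1 hneg) measureReal_nonneg
  have hz' : JJ c.μ Z c.Ec = 0 := by
    rwa [measureReal_eq_zero_iff] at hz
  have hae : ∀ᵐ p ∂(JJ c.μ Z), p ∉ c.Ec := measure_eq_zero_iff_ae_notMem.1 hz'
  have hge : ∀ᵐ p ∂(JJ c.μ Z), c.uh ≤ c.M p := by
    filter_upwards [hae, hg] with p h1 h2
    have h3 : c.ulo < c.M p := not_le.1 h1
    by_contra h4
    exact h2 ⟨h3, (not_le.1 h4).le⟩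
  have h5 : c.uh ≤ ∫ p, c.M p ∂(JJ c.μ Z) := by
    have : ∫ _p : c.X × c.X, c.uh ∂(JJ c.μ Z) ≤ ∫ p, c.M p ∂(JJ c.μ Z) :=
      integral_mono_ae (integrable_const _) hMi hge
    simpa using this
  rw [hIM] at h5
  have h6 : c.uh = 2 * (c.κ / c.m) := by unfold Gx.uh; ring
  rw [h6] at h5
  have : 0 < c.κ / c.m := by positivity
  linarith

end Pool.Agent.H83.GN.TPGx
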