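import Pool.Agent.H83.V.AllV
import Pool.Agent.H83.GN.MBG
import Pool.Agent.H83.GN.JVG
import Pool.Agent.H83.GN.G1
import Pool.Agent.H83.GN.G2
import Pool.Agent.H83.GN.G3
import Pool.Agent.H83.GN.G4
import Pool.Agent.H83.GN.G5
import Pool.Agent.H83.GN.G6
import Pool.Agent.H83.GN.GSW
import Pool.Agent.H83.GN.H1
import Pool.Agent.H83.GN.H2
import Pool.Agent.H83.GN.H3
import Pool.Agent.H83.GN.H4
import Pool.Agent.H83.GN.H6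
import Pool.Agent.H83.GN.H7
import Pool.Agent.H83.GN.H8
import Pool.Agent.H83.GN.H9
import Pool.Agent.H83.GN.ENG
import Pool.Agent.H83.GN.DSG
import Pool.Agent.H83.GN.GPG
import Pool.Agent.H83.GN.TPG

/-!
Theorem G: the ergodic part, closed up to the row LGB.
-/

set_option autoImplicit false

namespace Pool.Agent.H83.GN

open Pool.Agent.H67.AG.AllF
open Pool.Agent.H28.GN
open Pool.Agent.H83.V (v_BK v_LAB v_LAF v_CND v_X5 v_STX v_CPV)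

theorem g_NMG : T_NMG := pf_NMG
theorem g_NMP : T_NMP := pf_NMP g_NMG
theorem g_MBG : T_MBG := MBGx.pf_MBG v_BK
theorem g_JVG : T_JVG := JVGx.pf_JVG c_J1
theorem g_G1 : T_G1 := G1x.pf_G1 c_UL
theorem g_G2 : T_G2 := pf_G2 c_UL
theorem g_G3 : T_G3 := G3x.pf_G3 g_G2
theorem g_G4 : T_G4 := G4x.pf_G4 v_LAB c_UL
theorem g_G5 : T_G5 := G5x.pf_G5 c_ME
theorem g_G6 : T_G6 := G6x.pf_G6 c_UL g_G1
theorem g_GSW : T_GSW := GSWx.pf_GSW v_X5 g_G3 g_G4 g_G5 g_G6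
theorem g_GPG (hL : T_LGB) : T_GPG := GPGx.pf_GPG v_CND hL g_MBG g_NMP
theorem g_TPG (hL : T_LGB) : T_TPG := TPGx.pf_TPG (g_GPG hL) g_JVG g_MBG g_NMP c_J2 c_J3 c_TW
theorem g_H1 : T_H1 := H1x.pf_H1 g_MBG c_J3
theorem g_H2 : T_H2 := H2x.pf_H2 g_MBG g_NMP c_J2 c_J3 c_ME
theorem g_H3 : T_H3 := H3x.pf_H3 c_AP c_QM
theorem g_H4 : T_H4 := H4x.pf_H4 c_RPC c_NCO c_DGJ c_PXL
theorem g_H5 (hL : T_LGB) : T_H5 := H2x.pf_H5 c_PXL c_PNL (g_GPG hL) g_MBG c_J2 c_J3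
theorem g_H6 : T_H6 := H6x.pf_H6 g_MBG g_NMP
theorem g_H7 : T_H7 := H7x.pf_H7 g_NMP
theorem g_H8 : T_H8 := H8x.pf_H8 g_GSW c_PNL c_PNT c_PXL c_PXT
theorem g_H9 (hL : T_LGB) : T_H9 :=
  H9x.pf_H9 (g_GPG hL) g_MBG g_NMP c_QQA c_PXF c_PXL c_PXT c_NXI
theorem g_DSG (hL : T_LGB) : T_DSG :=
  DSGx.pf_DSG hL g_NMP g_H1 g_H2 g_H3 g_H4 (g_H5 hL) g_H6 g_H7 g_H8 (g_H9 hL) c_NXI c_PXL c_PXT
    c_PXF
theorem g_ENG (hL : T_LGB) : T_ENG := ENGx.pf_ENG g_MBG g_NMP (g_GPG hL) c_JT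

/-- there are no data -/
theorem noGx_of (hL : T_LGB) : IsEmpty Gx := erg_of (g_TPG hL) (g_DSG hL) (g_ENG hL) c_TW

end Pool.Agent.H83.GN
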