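import Pool.Agent.H28.GN.T2

set_option autoImplicit false

namespace Pool.Agent.H28.GN

/-- the constants, with the bound for `γ` -/
def T_NMP : Prop := ∀ c : Gx, c.γ ≤ 1 ∧ 0 < c.ulo ∧ 1000 * c.ulo < c.uh ∧ c.uh ≤ 1 / 1000 ∧
  c.ulo ≤ 1 / 1000000

theorem pf_NMP (h : T_NMG) : T_NMP := fun c => ⟨c.γ1, h c⟩

theorem pf_NMG : T_NMG := by
  intro c
  have hγ0 := c.γ0
  have hγ1 := c.γ1
  have hκ0 := c.κ0
  have hκ1 := c.κ1
  have hm : (1 : ℝ) ≤ c.m := by exact_mod_cast c.m0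
  have hm0 : (0 : ℝ) < c.m := by linarith
  have hγ2 : c.γ ^ 2 ≤ 1 := pow_le_one₀ hγ0.le hγ1
  have hκ2 : c.κ ≤ 1 / 16384 := by linarith
  have e1 : c.ulo = 8 / 61036 * (c.γ * c.κ / c.m) := by
    unfold Gx.ulo
    field_simp
  have e2 : c.uh = 2 * (c.κ / c.m) := by
    unfold Gx.uh
    ring
  have h1 : 0 < c.κ / c.m := by positivity
  have h2 : c.κ / c.m ≤ 1 / 16384 := by
    rw [div_le_iff₀ hm0]
    nlinarith
  have h3 : c.γ * c.κ / c.m ≤ c.κ / c.m := by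
    rw [mul_div_assoc]
    nlinarith
  have h4 : 0 < c.γ * c.κ / c.m := by positivity
  refine ⟨?_, ?_, ?_, ?_⟩
  · rw [e1]; positivity
  · rw [e1, e2]; linarith
  · rw [e2]; linarith
  · rw [e1]; linarith

end Pool.Agent.H28.GN
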