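import Pool.Agent.H83.GN.Nm

/-!
One pattern of the data of Theorem G.
-/

set_option autoImplicit false

open MeasureTheory ProbabilityTheory Filter Topology Finset
open scoped Nat ENNReal

namespace Pool.Agent.H83.GN

open Pool.Agent.H67.AG (avgP ul Inv Rt Av SA kap JJ TT InvZ nxt triv tow XN PN TN XX PX TX prX Fac)
open Pool.Agent.H28.LF (Wd La Cd dm ds)
open Pool.Agent.H28.GN

/-- the reference system, one pattern -/
structure S1 where
  q : ℕ
  n : ℕ
  m : ℕ
  U : Ultrafilter ℕ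
  hU : (U : Filter ℕ) ≤ atTop
  s : ℕ → ℝ
  sv : ∀ p, s p = 0 ∨ s p = 1
  Bad : ℕ → Set (Fin m → Fin q)
  Ω' : Type
  [mΩ' : MeasurableSpace Ω']
  P' : Measure Ω'
  [pP' : IsProbabilityMeasure P']
  T' : Ω' ≃ᵐ Ω'
  mp' : MeasurePreserving T' P' P'
  y : Fin n → Ω' → Fin q
  ym : ∀ b, Measurable (y b)

namespace S1

variable (d : S1)

instance : MeasurableSpace d.Ω' := d.mΩ'
instance : IsProbabilityMeasure d.P' := d.pP'

open Classical in
/-- the word with the reference `j i` at the place `i` is bad -/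
noncomputable def FF (p : ℕ) (j : Fin d.m → Fin d.n) (ω : d.Ω') : ℝ :=
  if (fun i => d.y (j i) (d.T'^[p * ((i : ℕ) + 1)] ω)) ∈ d.Bad p then 1 else 0

end S1

/-- an extension of the reference system with a selection of a reference -/
structure S1E (d : S1) where
  Ω : Type
  [mΩ : MeasurableSpace Ω]
  P : Measure Ω
  [pP : IsProbabilityMeasure P]
  T : Ω ≃ᵐ Ω
  mp : MeasurePreserving T P P
  g : Ω → d.Ω'
  fac : Fac P T d.P' d.T' g
  s : Ω → Fin d.n
  sm : Measurable s

namespace S1E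

variable {d : S1} (e : S1E d)

instance : MeasurableSpace e.Ω := e.mΩ
instance : IsProbabilityMeasure e.P := e.pP

/-- the symbol of the reference which is selected at the time `t` -/
def yt (t : ℕ) (ω : e.Ω) : Fin d.q := d.y (e.s (e.T^[t] ω)) (e.g ω)

/-- the symbol of the selected reference -/
def ys (ω : e.Ω) : Fin d.q := d.y (e.s ω) (e.g ω)

open Classical in
/-- the selection changes between the times `0` and `l` -/
noncomputable def mv (l : ℕ) (ω : e.Ω) : ℝ := if e.s (e.T^[l] ω) = e.s ω then 0 else 1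

/-- the defect of the asymptotic invariance of the bad words, on the set `A` -/
noncomputable def E2 (L : ℕ) (A : Set e.Ω) : ℝ :=
  ∑ j : Fin d.m → Fin d.n, ul (hyperfilter ℕ) fun L'' => ul d.U fun m =>
    avgP 2 m fun p => d.s p *
      ∫ ω in A, |Av d.T' 1 L (d.FF p j) (e.g ω) - Av d.T' 1 L'' (d.FF p j) (e.g ω)| ∂e.P

end S1E

/-- the frequency of the bad words for the shifted selection (as `T_Y2`). -/
def T_S12 : Prop := ∀ (d : S1) (e : S1E d) (L t : ℕ) (A : Set e.Ω), 0 < L →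
  MeasurableSet[Inv e.T 1] A →
  La d.U d.s e.P e.T (e.yt t) d.Bad A ≤ La d.U d.s e.P e.T e.ys d.Bad A +
    2 * (d.m : ℝ) / (L : ℝ) * ∑ l ∈ range L, ∫ ω in A, e.mv l ω ∂e.P + e.E2 L A

/-- one pattern -/
def one (d : Sg) (t : d.Pt) : S1 where
  q := d.q
  n := d.n
  m := d.R
  U := d.U
  hU := d.hU
  s := d.s t
  sv := d.sv t
  Bad := d.Bad t
  Ω' := d.Ω'
  P' := d.P'
  T' := d.T'
  mp' := d.mp'
  y := d.y
  ym := d.ym

/-- one pattern -/
def oneE {d : Sg} (e : SgE d) (t : d.Pt) : S1E (one d t) where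
  Ω := e.Ω
  P := e.P
  T := e.T
  mp := e.mp
  g := e.g
  fac := e.fac
  s := e.s
  sm := e.sm

end Pool.Agent.H83.GN
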